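import Pool.Agent.Lib.MP_8d8c46_lc.Nw.P

/-!
# Symmetric threshold: the operator without the edges inside `W`
-/

set_option autoImplicit false

open scoped Classical
open Finset

namespace Pool.Agent.Lib.MP_8d8c46_lc.Nw

open Pool.Agent.Lib.MP_8d8c46_lc.CW

section
variable {V : Type} [Fintype V] {G : SimpleGraph V} {d : ℕ} {W : Finset V}

theorem rs_ip (f g : V → ℝ) : ip f (rs W g) = ip (rs W f) g := by
  unfold ip rs
  refine Finset.sum_congr rfl fun x _ => ?_
  split_ifs
  · rfl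
  · ring

omit [Fintype V] in
theorem rs_rs (f : V → ℝ) : rs W (rs W f) = rs W f := by
  funext x
  unfold rs
  split_ifs <;> rfl

omit [Fintype V] in
theorem rs_lin (a b : ℝ) (f g : V → ℝ) :
    rs W (fun x => a * f x + b * g x) = fun x => a * rs W f x + b * rs W g x := by
  funext x
  unfold rs
  split_ifs <;> ring

theorem Ko_ip (f g : V → ℝ) : ip f (Ko G d W g) = ip f (Mo G d g) - ip (rs W f) (Mo G d (rs W g)) := by
  rw [ip_comm]
  have h : Ko G d W g = fun x => Mo G d g x - rs W (Mo G d (rs W g)) x := rfl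
  rw [h, ip_sub, ip_comm (Mo G d g), ip_comm (rs W (Mo G d (rs W g))), rs_ip]

theorem Ko_symm (f g : V → ℝ) : ip f (Ko G d W g) = ip (Ko G d W f) g := by
  rw [ip_comm (Ko G d W f), Ko_ip, Ko_ip, ip_comm g, ← ip_Mo_symm f g, ip_Mo_symm (rs W f), ip_comm (rs W g)]

theorem Ko_lin (a b : ℝ) (f g : V → ℝ) :
    Ko G d W (fun x => a * f x + b * g x) = fun x => a * Ko G d W f x + b * Ko G d W g x := by
  funext x
  unfold Ko
  rw [rs_lin, Mo_lin, Mo_lin, rs_lin]
  ring

/-- The operator as a sum over the edges which are not inside `W`. -/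
theorem Ko_sum (f : V → ℝ) (x : V) :
    Ko G d W f x = (∑ y, if G.Adj x y ∧ ¬ (x ∈ W ∧ y ∈ W) then f y else 0) / d := by
  unfold Ko rs
  by_cases hx : x ∈ W
  · rw [if_pos hx]
    unfold Mo
    rw [← sub_div, ← Finset.sum_sub_distrib]
    congr 1
    refine Finset.sum_congr rfl fun y _ => ?_
    by_cases h : G.Adj x y <;> by_cases hy : y ∈ W <;> simp [h, hx, hy]
  · rw [if_neg hx, sub_zero]
    unfold Mo
    congr 1
    refine Finset.sum_congr rfl fun y _ => ?_
    by_cases h : G.Adj x y <;> simp [h, hx]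

theorem Ko_nonneg {f : V → ℝ} (hf : ∀ x, 0 ≤ f x) (x : V) : 0 ≤ Ko G d W f x := by
  rw [Ko_sum]
  refine div_nonneg (Finset.sum_nonneg fun y _ => ?_) (Nat.cast_nonneg d)
  split_ifs
  · exact hf y
  · exact le_rfl

theorem Ko_le_Mo {f : V → ℝ} (hf : ∀ x, 0 ≤ f x) (x : V) : Ko G d W f x ≤ Mo G d f x := by
  rw [Ko_sum]
  unfold Mo
  refine div_le_div_of_nonneg_right (Finset.sum_le_sum fun y _ => ?_) (Nat.cast_nonneg d)
  by_cases h : G.Adj x y
  · rw [if_pos h]
    split_ifs
    · exact le_rfl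
    · exact hf y
  · rw [if_neg h, if_neg fun h' => h h'.1]

theorem Mo_one (hr : Regular G d) (hd : 1 ≤ d) (x : V) : Mo G d (fun _ => 1) x = 1 := by
  have hd' : (0 : ℝ) < d := by exact_mod_cast hd
  unfold Mo
  rw [Finset.sum_boole, div_eq_one_iff_eq hd'.ne']
  exact_mod_cast hr x

theorem om_eq (hr : Regular G d) (hd : 1 ≤ d) (x : V) : om G d W x = Ko G d W (fun _ => 1) x := by
  unfold om Ko
  rw [Mo_one hr hd]

theorem om_sum (hr : Regular G d) (hd : 1 ≤ d) (x : V) :
    om G d W x = (∑ y, if G.Adj x y ∧ ¬ (x ∈ W ∧ y ∈ W) then 1 else 0) / d := by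
  rw [om_eq hr hd, Ko_sum]

theorem om_nonneg (hr : Regular G d) (hd : 1 ≤ d) (x : V) : 0 ≤ om G d W x := by
  rw [om_eq hr hd]
  exact Ko_nonneg (fun _ => by norm_num) x

theorem om_le (x : V) : om G d W x ≤ 1 := by
  unfold om
  have h : 0 ≤ rs W (Mo G d (rs W fun _ => 1)) x := by
    unfold rs
    split_ifs
    · refine Mo_nonneg (fun y => ?_) x
      split_ifs <;> norm_num
    · exact le_rfl
  linarith

theorem om_out {x : V} (hx : x ∉ W) : om G d W x = 1 := by
  unfold om
  have h : rs W (Mo G d (rs W fun _ => 1)) x = 0 := by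
    unfold rs
    rw [if_neg hx]
  rw [h, sub_zero]

theorem Ko_zero (hr : Regular G d) (hd : 1 ≤ d) {x : V} (h : om G d W x = 0) (f : V → ℝ) : Ko G d W f x = 0 := by
  have hd' : (0 : ℝ) < d := by exact_mod_cast hd
  rw [om_sum hr hd, div_eq_zero_iff] at h
  have h1 : ∑ y, (if G.Adj x y ∧ ¬ (x ∈ W ∧ y ∈ W) then (1 : ℝ) else 0) = 0 := h.resolve_right hd'.ne'
  rw [Finset.sum_eq_zero_iff_of_nonneg fun y _ => by split_ifs <;> norm_num] at h1
  rw [Ko_sum]
  have h2 : ∑ y, (if G.Adj x y ∧ ¬ (x ∈ W ∧ y ∈ W) then f y else 0) = 0 := by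
    refine Finset.sum_eq_zero fun y hy => ?_
    have h3 := h1 y hy
    by_cases h4 : G.Adj x y ∧ ¬ (x ∈ W ∧ y ∈ W)
    · rw [if_pos h4] at h3
      norm_num at h3
    · rw [if_neg h4]
  rw [h2, zero_div]

theorem om_To (hr : Regular G d) (hd : 1 ≤ d) (f : V → ℝ) (x : V) : om G d W x * To G d W f x = Ko G d W f x := by
  unfold To
  by_cases h : om G d W x = 0
  · rw [h, zero_mul, Ko_zero hr hd h]
  · rw [mul_div_cancel₀ _ h]

theorem To_nonneg (hr : Regular G d) (hd : 1 ≤ d) {f : V → ℝ} (hf : ∀ x, 0 ≤ f x) (x : V) : 0 ≤ To G d W f x :=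
  div_nonneg (Ko_nonneg hf x) (om_nonneg hr hd x)

theorem To_lin (a b : ℝ) (f g : V → ℝ) :
    To G d W (fun x => a * f x + b * g x) = fun x => a * To G d W f x + b * To G d W g x := by
  funext x
  unfold To
  rw [Ko_lin]
  ring

theorem To_le (hr : Regular G d) (hd : 1 ≤ d) {f : V → ℝ} {s : ℝ} (hs0 : 0 ≤ s) (hs : ∀ x, f x ≤ s)
    (x : V) : To G d W f x ≤ s := by
  have hd' : (0 : ℝ) < d := by exact_mod_cast hd
  unfold To
  rcases (om_nonneg (W := W) hr hd x).eq_or_lt with h | h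
  · rw [← h, div_zero]
    exact hs0
  · rw [div_le_iff₀ h, om_sum hr hd, Ko_sum, mul_div_assoc', div_le_div_iff_of_pos_right hd', Finset.mul_sum]
    refine Finset.sum_le_sum fun y _ => ?_
    split_ifs
    · rw [mul_one]
      exact hs y
    · rw [mul_zero]

theorem ipw_comm (w f g : V → ℝ) : ipw w f g = ipw w g f :=
  Finset.sum_congr rfl fun x _ => by ring

theorem ipw_self_nonneg {w : V → ℝ} (hw : ∀ x, 0 ≤ w x) (f : V → ℝ) : 0 ≤ ipw w f f :=
  Finset.sum_nonneg fun x _ => mul_nonneg (hw x) (mul_self_nonneg _)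

theorem ipw_cs {w : V → ℝ} (hw : ∀ x, 0 ≤ w x) (f g : V → ℝ) : ipw w f g ^ 2 ≤ ipw w f f * ipw w g g := by
  have h1 := ip_cs (fun x => Real.sqrt (w x) * f x) (fun x => Real.sqrt (w x) * g x)
  have h2 : ∀ a b : V → ℝ, ip (fun x => Real.sqrt (w x) * a x) (fun x => Real.sqrt (w x) * b x) = ipw w a b := by
    intro a b
    unfold ip ipw
    refine Finset.sum_congr rfl fun x _ => ?_
    have h3 := Real.mul_self_sqrt (hw x)
    calc Real.sqrt (w x) * a x * (Real.sqrt (w x) * b x) = (Real.sqrt (w x) * Real.sqrt (w x)) * (a x * b x) := by ring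
      _ = w x * (a x * b x) := by rw [h3]
  rw [h2, h2, h2] at h1
  exact h1

theorem ipw_To (hr : Regular G d) (hd : 1 ≤ d) (f g : V → ℝ) : ipw (om G d W) f (To G d W g) = ip f (Ko G d W g) := by
  unfold ipw ip
  refine Finset.sum_congr rfl fun x _ => ?_
  rw [← om_To hr hd g x]
  ring

theorem To_symm (hr : Regular G d) (hd : 1 ≤ d) (f g : V → ℝ) :
    ipw (om G d W) f (To G d W g) = ipw (om G d W) (To G d W f) g := by
  rw [ipw_comm _ (To G d W f), ipw_To hr hd, ipw_To hr hd, Ko_symm, ip_comm]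

/-- The Dirichlet form of the edges not inside `W` is nonnegative. -/
theorem form2 (hr : Regular G d) (hd : 1 ≤ d) (f g : V → ℝ) :
    2 * ip f (Ko G d W g) ≤ ipw (om G d W) f f + ipw (om G d W) g g := by
  have hd' : (0 : ℝ) < d := by exact_mod_cast hd
  set e : V → V → ℝ := fun x y => if G.Adj x y ∧ ¬ (x ∈ W ∧ y ∈ W) then 1 else 0 with he
  have esymm : ∀ x y, e x y = e y x := by
    intro x y
    simp only [he]
    refine if_congr ?_ rfl rfl
    rw [G.adj_comm, and_comm (a := x ∈ W)]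
  have h1 : ip f (Ko G d W g) = (∑ x, ∑ y, e x y * (f x * g y)) / d := by
    unfold ip
    rw [Finset.sum_div]
    refine Finset.sum_congr rfl fun x _ => ?_
    rw [Ko_sum, mul_div_assoc', Finset.mul_sum]
    congr 1
    refine Finset.sum_congr rfl fun y _ => ?_
    simp only [he]
    split_ifs <;> ring
  have h2 : ∀ u : V → ℝ, ipw (om G d W) u u = (∑ x, ∑ y, e x y * (u x * u x)) / d := by
    intro u
    unfold ipw
    rw [Finset.sum_div]
    refine Finset.sum_congr rfl fun x _ => ?_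
    rw [om_sum hr hd, div_mul_eq_mul_div, Finset.sum_mul]
  have h3 : ∑ x, ∑ y, e x y * (g x * g x) = ∑ x, ∑ y, e x y * (g y * g y) := by
    rw [Finset.sum_comm]
    refine Finset.sum_congr rfl fun x _ => Finset.sum_congr rfl fun y _ => ?_
    rw [esymm y x]
  rw [h1, h2, h2, h3, ← add_div, mul_div_assoc', div_le_div_iff_of_pos_right hd', Finset.mul_sum,
    ← Finset.sum_add_distrib]
  refine Finset.sum_le_sum fun x _ => ?_
  rw [Finset.mul_sum, ← Finset.sum_add_distrib]
  refine Finset.sum_le_sum fun y _ => ?_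
  have h4 : 0 ≤ e x y := by
    simp only [he]
    split_ifs <;> norm_num
  nlinarith [mul_nonneg h4 (mul_self_nonneg (f x - g y))]

theorem norm_To_le (hr : Regular G d) (hd : 1 ≤ d) (f : V → ℝ) :
    ipw (om G d W) (To G d W f) (To G d W f) ≤ ipw (om G d W) f f := by
  have h1 := form2 (W := W) hr hd (To G d W f) f
  rw [← ipw_To hr hd] at h1
  linarith

/-- The operator keeps the mass. -/
theorem sum_Ko (hr : Regular G d) (hd : 1 ≤ d) (f : V → ℝ) : ∑ x, Ko G d W f x = ∑ x, om G d W x * f x := by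
  have h1 : ip (fun _ => 1) (Ko G d W f) = ip (Ko G d W fun _ => 1) f := Ko_symm _ _
  unfold ip at h1
  simp only [one_mul] at h1
  rw [h1]
  exact Finset.sum_congr rfl fun x _ => by rw [om_eq hr hd]

theorem sum_To (hr : Regular G d) (hd : 1 ≤ d) (f : V → ℝ) :
    ∑ x, om G d W x * To G d W f x = ∑ x, om G d W x * f x := by
  rw [← sum_Ko (W := W) hr hd f]
  exact Finset.sum_congr rfl fun x _ => om_To hr hd f x

theorem To_iter_nonneg (hr : Regular G d) (hd : 1 ≤ d) {f : V → ℝ} (hf : ∀ x, 0 ≤ f x) (j : ℕ) (x : V) :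
    0 ≤ (To G d W)^[j] f x := by
  induction j generalizing x with
  | zero => exact hf x
  | succ j ih =>
    rw [Function.iterate_succ_apply']
    exact To_nonneg hr hd ih x

theorem To_iter_sum (hr : Regular G d) (hd : 1 ≤ d) (f : V → ℝ) (j : ℕ) :
    ∑ x, om G d W x * (To G d W)^[j] f x = ∑ x, om G d W x * f x := by
  induction j with
  | zero => rfl
  | succ j ih =>
    rw [Function.iterate_succ_apply', sum_To hr hd, ih]

theorem To_iter_symm (hr : Regular G d) (hd : 1 ≤ d) (f g : V → ℝ) (j : ℕ) :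
    ipw (om G d W) f ((To G d W)^[j] g) = ipw (om G d W) ((To G d W)^[j] f) g := by
  induction j generalizing f g with
  | zero => rfl
  | succ j ih =>
    rw [Function.iterate_succ_apply', Function.iterate_succ_apply, To_symm hr hd, ih]

/-- Bound of the bilinear form on a sparse set. PROOF: `n x = a x ^ 2 + b x ^ 2`; for an edge `x y`
`a x b y + a y b x ≤ ((c - 1 / c) min (n x) (n y) + (n x + n y) / c) / 2`, and the sum of the minima is at most `τ ∑ n` by `layer`
for the function `n` on `R` and a large constant on `W`. -/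
theorem bil {τ : ℝ} (hr : Regular G d) (hd : 1 ≤ d) {R : Finset V} {c : ℝ} (hc : 1 ≤ c)
    (hmax : ∀ Q ⊆ R, FF G τ (W ∪ Q) ≤ FF G τ W) {a b : V → ℝ} (hτ : 0 ≤ τ) :
    ∑ x ∈ W ∪ R, ∑ y ∈ W ∪ R, (if G.Adj x y ∧ ¬ (x ∈ W ∧ y ∈ W) then a x * b y else 0) ≤
      1 / 2 * ((c - 1 / c) * (τ / 2) + d / c) * ∑ x ∈ W ∪ R, om G d W x * (a x ^ 2 + b x ^ 2) := by
  have hc0 : 0 < c := by linarith
  have hcc : 0 ≤ c - 1 / c := by
    rw [sub_nonneg, div_le_iff₀ hc0]
    nlinarith
  set e : V → V → ℝ := fun x y => if G.Adj x y ∧ ¬ (x ∈ W ∧ y ∈ W) then 1 else 0 with he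
  have e0 : ∀ x y, 0 ≤ e x y := by
    intro x y
    simp only [he]
    split_ifs <;> norm_num
  have esymm : ∀ x y, e x y = e y x := by
    intro x y
    simp only [he]
    refine if_congr ?_ rfl rfl
    rw [G.adj_comm, and_comm (a := x ∈ W)]
  have hterm : ∀ x y, (if G.Adj x y ∧ ¬ (x ∈ W ∧ y ∈ W) then a x * b y else 0) = e x y * (a x * b y) := by
    intro x y
    simp only [he]
    split_ifs <;> ring
  set n : V → ℝ := fun x => a x ^ 2 + b x ^ 2 with hn
  have n0 : ∀ x, 0 ≤ n x := fun x => by positivity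
  set M₀ : ℝ := ∑ x, n x with hM₀
  have hM0 : 0 ≤ M₀ := Finset.sum_nonneg fun x _ => n0 x
  have hnM : ∀ x, n x ≤ M₀ := fun x => Finset.single_le_sum (fun y _ => n0 y) (Finset.mem_univ x)
  -- the sum of the minima
  set q : V → ℝ := fun x => if x ∈ W then M₀ else if x ∈ R then n x else 0 with hq
  have q0 : ∀ x, 0 ≤ q x ∧ q x ≤ M₀ := by
    intro x
    simp only [hq]
    split_ifs
    · exact ⟨hM0, le_rfl⟩
    · exact ⟨n0 x, hnM x⟩
    · exact ⟨le_rfl, hM0⟩
  have hlay : LL G τ q ≤ M₀ * FF G τ W := by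
    refine layer hM0 q0 ?_
    intro s hs0 hs1
    have h1 : (univ.filter fun x => s < q x) = W ∪ (R.filter fun x => s < n x) := by
      ext x
      rw [mem_filter, mem_union, mem_filter]
      simp only [hq]
      by_cases hx : x ∈ W
      · simp [hx, hs1]
      · by_cases hx' : x ∈ R
        · simp [hx, hx']
        · simp [hx, hx', hs0]
    rw [h1]
    exact hmax _ (filter_subset _ _)
  have hmin : ∑ x ∈ W ∪ R, ∑ y ∈ W ∪ R, e x y * min (q x) (q y) ≤ τ * ∑ x ∈ W ∪ R, om G d W x * n x := by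
    have h1 : ∑ x ∈ W ∪ R, ∑ y ∈ W ∪ R, e x y * min (q x) (q y) + M₀ * inside G W ≤
        ∑ x, ∑ y, (if G.Adj x y then min (q x) (q y) else 0) := by
      have hres : ∀ f : V → V → ℝ, (∀ x y, x ∉ W ∪ R ∨ y ∉ W ∪ R → f x y = 0) →
          ∑ x, ∑ y, f x y = ∑ x ∈ W ∪ R, ∑ y ∈ W ∪ R, f x y := by
        intro f hf
        have h3 : ∑ x, ∑ y, f x y = ∑ x ∈ W ∪ R, ∑ y, f x y :=
          (Finset.sum_subset (Finset.subset_univ (W ∪ R)) fun x _ hx =>
            Finset.sum_eq_zero fun y _ => hf x y (Or.inl hx)).symm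
        rw [h3]
        refine Finset.sum_congr rfl fun x _ => ?_
        exact (Finset.sum_subset (Finset.subset_univ (W ∪ R)) fun y _ hy => hf x y (Or.inr hy)).symm
      have hqz : ∀ x, x ∉ W ∪ R → q x = 0 := by
        intro x hx
        simp only [hq]
        rw [if_neg (fun h => hx (mem_union_left _ h)), if_neg (fun h => hx (mem_union_right _ h))]
      have hA : ∑ x, ∑ y, (if G.Adj x y then min (q x) (q y) else 0) =
          ∑ x ∈ W ∪ R, ∑ y ∈ W ∪ R, (if G.Adj x y then min (q x) (q y) else 0) := by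
        refine hres _ ?_
        rintro x y (hx | hy)
        · rw [hqz x hx, min_eq_left (q0 y).1]
          simp
        · rw [hqz y hy, min_eq_right (q0 x).1]
          simp
      have hB : (inside G W : ℝ) = ∑ x ∈ W ∪ R, ∑ y ∈ W ∪ R,
          (if G.Adj x y then (if x ∈ W ∧ y ∈ W then (1 : ℝ) else 0) else 0) := by
        rw [inside_sum]
        refine hres _ ?_
        rintro x y (hx | hy)
        · have h4 : x ∉ W := fun h => hx (mem_union_left _ h)
          simp [h4]
        · have h4 : y ∉ W := fun h => hy (mem_union_left _ h)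
          simp [h4]
      rw [hA, hB, Finset.mul_sum, ← Finset.sum_add_distrib]
      refine Finset.sum_le_sum fun x _ => ?_
      rw [Finset.mul_sum, ← Finset.sum_add_distrib]
      refine Finset.sum_le_sum fun y _ => ?_
      simp only [he]
      by_cases h : G.Adj x y
      · by_cases hx : x ∈ W <;> by_cases hy : y ∈ W
        · have hqx : q x = M₀ := by simp only [hq]; rw [if_pos hx]
          have hqy : q y = M₀ := by simp only [hq]; rw [if_pos hy]
          rw [if_neg (fun hh => hh.2 ⟨hx, hy⟩), if_pos h, if_pos ⟨hx, hy⟩, if_pos h, hqx, hqy, min_self]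
          linarith
        · rw [if_pos ⟨h, fun hh => hy hh.2⟩, if_pos h, if_neg (fun hh => hy hh.2), if_pos h]
          linarith
        · rw [if_pos ⟨h, fun hh => hx hh.1⟩, if_pos h, if_neg (fun hh => hx hh.1), if_pos h]
          linarith
        · rw [if_pos ⟨h, fun hh => hx hh.1⟩, if_pos h, if_neg (fun hh => hx hh.1), if_pos h]
          linarith
      · rw [if_neg (fun hh => h hh.1), if_neg h, if_neg h]
        norm_num
    have h2 : ∑ x, q x ≤ M₀ * W.card + ∑ x ∈ W ∪ R, om G d W x * n x := by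
      have h3 : ∀ x, q x ≤ M₀ * (if x ∈ W then 1 else 0) + (if x ∈ W ∪ R then om G d W x * n x else 0) := by
        intro x
        simp only [hq]
        by_cases hx : x ∈ W
        · rw [if_pos hx, if_pos hx, if_pos (mem_union_left _ hx)]
          have := mul_nonneg (om_nonneg (W := W) hr hd x) (n0 x)
          linarith
        · by_cases hx' : x ∈ R
          · rw [if_neg hx, if_neg hx, if_pos hx', if_pos (mem_union_right _ hx'), om_out hx]
            linarith
          · rw [if_neg hx, if_neg hx, if_neg hx', if_neg (fun h => (mem_union.1 h).elim hx hx')]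
            linarith
      refine (Finset.sum_le_sum fun x _ => h3 x).trans (le_of_eq ?_)
      rw [Finset.sum_add_distrib, ← Finset.mul_sum, Finset.sum_boole, ← Finset.sum_filter]
      have h4 : (univ.filter fun x => x ∈ W) = W := by
        ext x
        simp
      have h5 : (univ.filter fun x => x ∈ W ∪ R) = W ∪ R := by
        ext x
        simp
      rw [h4, h5]
    unfold LL FF at hlay
    have h6 : τ * ∑ x, q x ≤ τ * (M₀ * W.card + ∑ x ∈ W ∪ R, om G d W x * n x) := mul_le_mul_of_nonneg_left h2 hτ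
    nlinarith
  -- the main inequality
  have hpair : ∀ x ∈ W ∪ R, ∀ y ∈ W ∪ R, e x y * (a x * b y + a y * b x) ≤
      1 / 2 * ((c - 1 / c) * (e x y * min (q x) (q y)) + 1 / c * (e x y * (n x + n y))) := by
    intro x hx y hy
    have h3 : ∀ u v : ℝ, 2 * (u * v) ≤ c * u ^ 2 + v ^ 2 / c := by
      intro u v
      have h4 : c * u ^ 2 + v ^ 2 / c - 2 * (u * v) = (c * u - v) ^ 2 / c := by
        field_simp
        ring
      have h5 : 0 ≤ (c * u - v) ^ 2 / c := by positivity
      linarith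
    have key : ∀ x y : V, a x * b y + a y * b x ≤ 1 / 2 * ((c - 1 / c) * n x + 1 / c * (n x + n y)) := by
      intro x y
      have h6 := h3 (a x) (b y)
      have h7 := h3 (b x) (a y)
      have h8 : (c - 1 / c) * n x + 1 / c * (n x + n y) =
          c * a x ^ 2 + b y ^ 2 / c + (c * b x ^ 2 + a y ^ 2 / c) := by
        simp only [hn]
        ring
      rw [h8]
      linarith
    by_cases hadj : G.Adj x y ∧ ¬ (x ∈ W ∧ y ∈ W)
    · have hexy : e x y = 1 := by
        simp only [he]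
        rw [if_pos hadj]
      rw [hexy, one_mul, one_mul, one_mul]
      have hqn : ∀ z ∈ W ∪ R, n z ≤ q z := by
        intro z hz
        simp only [hq]
        by_cases hzW : z ∈ W
        · rw [if_pos hzW]
          exact hnM z
        · rw [if_neg hzW, if_pos ((mem_union.1 hz).resolve_left hzW)]
      rcases le_total (n x) (n y) with hle | hle
      · have h9 : n x ≤ min (q x) (q y) := le_min (hqn x hx) (hle.trans (hqn y hy))
        have h10 := key x y
        have h11 : (c - 1 / c) * n x ≤ (c - 1 / c) * min (q x) (q y) := mul_le_mul_of_nonneg_left h9 hcc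
        linarith
      · have h9 : n y ≤ min (q x) (q y) := le_min (hle.trans (hqn x hx)) (hqn y hy)
        have h10 := key y x
        have h11 : (c - 1 / c) * n y ≤ (c - 1 / c) * min (q x) (q y) := mul_le_mul_of_nonneg_left h9 hcc
        linarith
    · have hexy : e x y = 0 := by
        simp only [he]
        rw [if_neg hadj]
      rw [hexy]
      simp
  have hdeg : ∑ x ∈ W ∪ R, ∑ y ∈ W ∪ R, e x y * (n x + n y) ≤ 2 * d * ∑ x ∈ W ∪ R, om G d W x * n x := by
    have hd' : (0 : ℝ) < d := by exact_mod_cast hd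
    have h4 : ∀ x, ∑ y ∈ W ∪ R, e x y ≤ d * om G d W x := by
      intro x
      calc ∑ y ∈ W ∪ R, e x y ≤ ∑ y, e x y :=
            Finset.sum_le_sum_of_subset_of_nonneg (Finset.subset_univ _) fun y _ _ => e0 x y
        _ = d * om G d W x := by
            rw [om_sum hr hd, mul_div_cancel₀ _ hd'.ne']
    have h5 : ∑ x ∈ W ∪ R, ∑ y ∈ W ∪ R, e x y * (n x + n y) =
        ∑ x ∈ W ∪ R, n x * ∑ y ∈ W ∪ R, e x y + ∑ x ∈ W ∪ R, n x * ∑ y ∈ W ∪ R, e x y := by
      have h6 : ∑ x ∈ W ∪ R, ∑ y ∈ W ∪ R, e x y * (n x + n y) =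
          ∑ x ∈ W ∪ R, ∑ y ∈ W ∪ R, n x * e x y + ∑ x ∈ W ∪ R, ∑ y ∈ W ∪ R, n y * e x y := by
        rw [← Finset.sum_add_distrib]
        refine Finset.sum_congr rfl fun x _ => ?_
        rw [← Finset.sum_add_distrib]
        exact Finset.sum_congr rfl fun y _ => by ring
      rw [h6]
      congr 1
      · exact Finset.sum_congr rfl fun x _ => (Finset.mul_sum _ _ _).symm
      · rw [Finset.sum_comm]
        refine Finset.sum_congr rfl fun x _ => ?_
        rw [Finset.mul_sum]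
        exact Finset.sum_congr rfl fun y _ => by rw [esymm y x]
    have h7 : ∑ x ∈ W ∪ R, n x * ∑ y ∈ W ∪ R, e x y ≤ d * ∑ x ∈ W ∪ R, om G d W x * n x := by
      rw [Finset.mul_sum]
      refine Finset.sum_le_sum fun x _ => ?_
      have h8 := mul_le_mul_of_nonneg_left (h4 x) (n0 x)
      linarith
    rw [h5]
    linarith
  have hsym : ∑ x ∈ W ∪ R, ∑ y ∈ W ∪ R, e x y * (a x * b y + a y * b x) =
      2 * ∑ x ∈ W ∪ R, ∑ y ∈ W ∪ R, e x y * (a x * b y) := by
    have h6 : ∑ x ∈ W ∪ R, ∑ y ∈ W ∪ R, e x y * (a x * b y + a y * b x) =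
        ∑ x ∈ W ∪ R, ∑ y ∈ W ∪ R, e x y * (a x * b y) + ∑ x ∈ W ∪ R, ∑ y ∈ W ∪ R, e x y * (a y * b x) := by
      rw [← Finset.sum_add_distrib]
      refine Finset.sum_congr rfl fun x _ => ?_
      rw [← Finset.sum_add_distrib]
      exact Finset.sum_congr rfl fun y _ => by ring
    have h7 : ∑ x ∈ W ∪ R, ∑ y ∈ W ∪ R, e x y * (a y * b x) = ∑ x ∈ W ∪ R, ∑ y ∈ W ∪ R, e x y * (a x * b y) := by
      rw [Finset.sum_comm]
      refine Finset.sum_congr rfl fun x _ => Finset.sum_congr rfl fun y _ => ?_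
      rw [esymm y x]
    rw [h6, h7]
    ring
  have hall := Finset.sum_le_sum fun (x : V) (hx : x ∈ W ∪ R) =>
    Finset.sum_le_sum fun (y : V) (hy : y ∈ W ∪ R) => hpair x hx y hy
  have hsplit : ∑ x ∈ W ∪ R, ∑ y ∈ W ∪ R,
      1 / 2 * ((c - 1 / c) * (e x y * min (q x) (q y)) + 1 / c * (e x y * (n x + n y))) =
      1 / 2 * ((c - 1 / c) * ∑ x ∈ W ∪ R, ∑ y ∈ W ∪ R, e x y * min (q x) (q y) +
        1 / c * ∑ x ∈ W ∪ R, ∑ y ∈ W ∪ R, e x y * (n x + n y)) := by
    rw [Finset.mul_sum, Finset.mul_sum, ← Finset.sum_add_distrib, Finset.mul_sum]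
    refine Finset.sum_congr rfl fun x _ => ?_
    rw [Finset.mul_sum, Finset.mul_sum, ← Finset.sum_add_distrib, Finset.mul_sum]
  rw [hsplit, hsym] at hall
  have h1 : (c - 1 / c) * ∑ x ∈ W ∪ R, ∑ y ∈ W ∪ R, e x y * min (q x) (q y) ≤
      (c - 1 / c) * (τ * ∑ x ∈ W ∪ R, om G d W x * n x) := mul_le_mul_of_nonneg_left hmin hcc
  have h2 : 1 / c * ∑ x ∈ W ∪ R, ∑ y ∈ W ∪ R, e x y * (n x + n y) ≤ 1 / c * (2 * d * ∑ x ∈ W ∪ R, om G d W x * n x) :=
    mul_le_mul_of_nonneg_left hdeg (by positivity)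
  have h3 : ∑ x ∈ W ∪ R, ∑ y ∈ W ∪ R, (if G.Adj x y ∧ ¬ (x ∈ W ∧ y ∈ W) then a x * b y else 0) =
      ∑ x ∈ W ∪ R, ∑ y ∈ W ∪ R, e x y * (a x * b y) :=
    Finset.sum_congr rfl fun x _ => Finset.sum_congr rfl fun y _ => hterm x y
  rw [h3]
  have h4 : 1 / 2 * ((c - 1 / c) * (τ / 2) + d / c) * ∑ x ∈ W ∪ R, om G d W x * n x =
      1 / 4 * ((c - 1 / c) * (τ * ∑ x ∈ W ∪ R, om G d W x * n x) + 1 / c * (2 * d * ∑ x ∈ W ∪ R, om G d W x * n x)) := by
    ring
  rw [h4]
  linarith

end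

end Pool.Agent.Lib.MP_8d8c46_lc.Nw
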