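import Pool.Agent.Lib.MP_8d8c46_lc.Nw.W
import Pool.Agent.Lib.MP_8d8c46_lc.Nw.Op

/-!
# Symmetric threshold: decay of the walk, log-convexity
-/

set_option autoImplicit false

open scoped Classical
open Finset

namespace Pool.Agent.Lib.MP_8d8c46_lc.Nw

open Pool.Agent.Lib.MP_8d8c46_lc.CW

section
variable {V : Type} [Fintype V] {G : SimpleGraph V} {d : ℕ} {W : Finset V}

/-- `bil` in terms of the operator. -/
theorem bil_op (hr : Regular G d) (hd : 1 ≤ d) {R : Finset V} {θ : ℝ} (hθ : 0 < θ) (hθ1 : θ ≤ 1 / 2)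
    (hmax : ∀ Q ⊆ R, FF G (2 * θ * d) (W ∪ Q) ≤ FF G (2 * θ * d) W)
    {F U : V → ℝ} (hF : ∀ x, x ∉ W ∪ R → F x = 0) (hU : ∀ x, x ∉ W ∪ R → U x = 0) :
    ip U (Ko G d W F) ≤ Real.sqrt (θ * (1 - θ)) * (ipw (om G d W) F F + ipw (om G d W) U U) := by
  have hd' : (0 : ℝ) < d := by exact_mod_cast hd
  have hq : 0 < (1 - θ) / θ := div_pos (by linarith) hθ
  set c : ℝ := Real.sqrt ((1 - θ) / θ) with hc
  have hc1 : 1 ≤ c := by
    rw [hc, Real.one_le_sqrt, le_div_iff₀ hθ]
    linarith
  have hc0 : 0 < c := by linarith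
  have hcc : c * c = (1 - θ) / θ := Real.mul_self_sqrt hq.le
  have hcs : c * θ = Real.sqrt (θ * (1 - θ)) := by
    rw [eq_comm, Real.sqrt_eq_iff_mul_self_eq (mul_nonneg hθ.le (by linarith)) (by positivity)]
    have : c * θ * (c * θ) = (c * c) * (θ * θ) := by ring
    rw [this, hcc]
    field_simp
  have hcs2 : (1 - θ) / c = Real.sqrt (θ * (1 - θ)) := by
    rw [← hcs, div_eq_iff hc0.ne']
    have : c * θ * c = (c * c) * θ := by ring
    rw [this, hcc]
    field_simp
  have hb := bil hr hd hc1 hmax (a := U) (b := F) (by positivity)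
  have h1 : ∑ x ∈ W ∪ R, ∑ y ∈ W ∪ R, (if G.Adj x y ∧ ¬ (x ∈ W ∧ y ∈ W) then U x * F y else 0) =
      d * ip U (Ko G d W F) := by
    unfold ip
    rw [Finset.mul_sum]
    rw [← Finset.sum_subset (Finset.subset_univ (W ∪ R)) (fun x _ hx => by rw [hU x hx]; ring)]
    refine Finset.sum_congr rfl fun x _ => ?_
    rw [Ko_sum, ← Finset.sum_subset (Finset.subset_univ (W ∪ R)) (fun y _ hy => by rw [hF y hy]; simp)]
    have h2 : ∑ y ∈ W ∪ R, (if G.Adj x y ∧ ¬ (x ∈ W ∧ y ∈ W) then U x * F y else 0) =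
        U x * ∑ y ∈ W ∪ R, (if G.Adj x y ∧ ¬ (x ∈ W ∧ y ∈ W) then F y else 0) := by
      rw [Finset.mul_sum]
      refine Finset.sum_congr rfl fun y _ => ?_
      split_ifs <;> ring
    rw [h2]
    field_simp
  have h3 : ∑ x ∈ W ∪ R, om G d W x * (U x ^ 2 + F x ^ 2) ≤ ipw (om G d W) F F + ipw (om G d W) U U := by
    unfold ipw
    rw [← Finset.sum_add_distrib]
    calc ∑ x ∈ W ∪ R, om G d W x * (U x ^ 2 + F x ^ 2) ≤ ∑ x, om G d W x * (U x ^ 2 + F x ^ 2) :=
          Finset.sum_le_sum_of_subset_of_nonneg (Finset.subset_univ _) fun x _ _ =>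
            mul_nonneg (om_nonneg hr hd x) (by positivity)
      _ = _ := Finset.sum_congr rfl fun x _ => by ring
  have h4 : 1 / 2 * ((c - 1 / c) * (2 * θ * d / 2) + d / c) = d * Real.sqrt (θ * (1 - θ)) := by
    have : 1 / 2 * ((c - 1 / c) * (2 * θ * d / 2) + d / c) = d * (1 / 2 * (c * θ + (1 - θ) / c)) := by ring
    rw [this, hcs, hcs2]
    ring
  rw [h1, h4] at hb
  have h5 : d * ip U (Ko G d W F) ≤
      d * (Real.sqrt (θ * (1 - θ)) * (ipw (om G d W) F F + ipw (om G d W) U U)) := by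
    refine hb.trans ?_
    rw [mul_assoc]
    refine mul_le_mul_of_nonneg_left (mul_le_mul_of_nonneg_left h3 (Real.sqrt_nonneg _)) hd'.le
  exact le_of_mul_le_mul_left h5 hd'

/-- One step of the walk. PROOF: `f = F + m`, `T f = U + m'` with the parts `F = (f - s)₊`, `U = (T f - s)₊` above the
level `s`; `⟨T f, T f⟩ = ⟨U, T F⟩ + ⟨m', T F⟩ + ⟨T f, T m⟩`, the last two terms are at most `s` times the mass; the first one by the
hypothesis for `σ F` and `U / σ`. -/
theorem decayK (hr : Regular G d) (hd : 1 ≤ d) {s m₀ κ : ℝ} (hs0 : 0 < s) {f : V → ℝ} (f0 : ∀ x, 0 ≤ f x)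
    (hs : ∑ x, om G d W x * f x ≤ m₀)
    (hB : ∀ F U : V → ℝ, (∀ x, f x ≤ s → To G d W f x ≤ s → F x = 0) →
      (∀ x, f x ≤ s → To G d W f x ≤ s → U x = 0) →
      ip U (Ko G d W F) ≤ κ / 2 * (ipw (om G d W) F F + ipw (om G d W) U U)) (hκ : 0 ≤ κ) :
    ipw (om G d W) (To G d W f) (To G d W f) ≤
      κ * Real.sqrt (ipw (om G d W) f f * ipw (om G d W) (To G d W f) (To G d W f)) + 2 * (s * m₀) := by
  set u : V → ℝ := To G d W f with hu
  set w : V → ℝ := om G d W with hw
  have w0 : ∀ x, 0 ≤ w x := fun x => om_nonneg hr hd x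
  have u0 : ∀ x, 0 ≤ u x := fun x => To_nonneg hr hd f0 x
  have hus : ∑ x, w x * u x ≤ m₀ := by
    rw [hw, hu, sum_To hr hd]
    exact hs
  have hm0 : 0 ≤ m₀ := le_trans (Finset.sum_nonneg fun x _ => mul_nonneg (w0 x) (f0 x)) hs
  set A := ipw w f f with hA
  set B := ipw w u u with hBd
  have hA0 : 0 ≤ A := ipw_self_nonneg w0 f
  have hB0 : 0 ≤ B := ipw_self_nonneg w0 u
  rcases hB0.eq_or_lt with hz | hBpos
  · rw [← hz]
    positivity
  have hApos : 0 < A := lt_of_lt_of_le hBpos (norm_To_le hr hd f)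
  let F : V → ℝ := fun x => max (f x - s) 0
  let U : V → ℝ := fun x => max (u x - s) 0
  have F0 : ∀ x, 0 ≤ F x := fun x => le_max_right _ _
  have U0 : ∀ x, 0 ≤ U x := fun x => le_max_right _ _
  have Ff : ∀ x, F x ≤ f x := fun x => max_le (by linarith) (f0 x)
  have Uu : ∀ x, U x ≤ u x := fun x => max_le (by linarith) (u0 x)
  have fF : ∀ x, f x - F x ≤ s := fun x => by have := le_max_left (f x - s) 0; linarith
  have uU : ∀ x, u x - U x ≤ s := fun x => by have := le_max_left (u x - s) 0; linarith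
  have hFA : ipw w F F ≤ A := Finset.sum_le_sum fun x _ =>
    mul_le_mul_of_nonneg_left (mul_le_mul (Ff x) (Ff x) (F0 x) (f0 x)) (w0 x)
  have hUB : ipw w U U ≤ B := Finset.sum_le_sum fun x _ =>
    mul_le_mul_of_nonneg_left (mul_le_mul (Uu x) (Uu x) (U0 x) (u0 x)) (w0 x)
  -- the main part
  set σ : ℝ := Real.sqrt (Real.sqrt (B / A)) with hσ
  have hσ0 : 0 < σ := Real.sqrt_pos.2 (Real.sqrt_pos.2 (div_pos hBpos hApos))
  have hσ2 : σ * σ = Real.sqrt (B / A) := Real.mul_self_sqrt (Real.sqrt_nonneg _)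
  have hmain : ip U (Ko G d W F) ≤ κ * Real.sqrt (A * B) := by
    have h1 := hB (fun x => σ * F x) (fun x => σ⁻¹ * U x) ?_ ?_
    · have h2 : ip (fun x => σ⁻¹ * U x) (Ko G d W (fun x => σ * F x)) = ip U (Ko G d W F) := by
        have h3 : (fun x => σ * F x) = fun x => σ * F x + 0 * F x := by
          funext x
          ring
        rw [h3, Ko_lin]
        unfold ip
        refine Finset.sum_congr rfl fun x _ => ?_
        field_simp
        ring
      have h4 : ipw w (fun x => σ * F x) (fun x => σ * F x) = σ * σ * ipw w F F := by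
        unfold ipw
        rw [Finset.mul_sum]
        exact Finset.sum_congr rfl fun x _ => by ring
      have h5 : ipw w (fun x => σ⁻¹ * U x) (fun x => σ⁻¹ * U x) = (σ * σ)⁻¹ * ipw w U U := by
        unfold ipw
        rw [Finset.mul_sum]
        refine Finset.sum_congr rfl fun x _ => ?_
        rw [mul_inv]
        ring
      rw [h2, h4, h5, hσ2] at h1
      have hq : 0 < Real.sqrt (B / A) := Real.sqrt_pos.2 (div_pos hBpos hApos)
      have h6 : Real.sqrt (B / A) * A = Real.sqrt (A * B) := by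
        rw [eq_comm, Real.sqrt_eq_iff_mul_self_eq (by positivity) (by positivity)]
        have : Real.sqrt (B / A) * A * (Real.sqrt (B / A) * A) =
            (Real.sqrt (B / A) * Real.sqrt (B / A)) * (A * A) := by ring
        rw [this, Real.mul_self_sqrt (by positivity)]
        field_simp
      have h7 : (Real.sqrt (B / A))⁻¹ * B = Real.sqrt (A * B) := by
        rw [inv_mul_eq_div, div_eq_iff hq.ne', ← h6]
        have : Real.sqrt (B / A) * A * Real.sqrt (B / A) =
            (Real.sqrt (B / A) * Real.sqrt (B / A)) * A := by ring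
        rw [this, Real.mul_self_sqrt (by positivity)]
        field_simp
      have h8 : Real.sqrt (B / A) * ipw w F F ≤ Real.sqrt (A * B) := by
        rw [← h6]
        exact mul_le_mul_of_nonneg_left hFA hq.le
      have h9 : (Real.sqrt (B / A))⁻¹ * ipw w U U ≤ Real.sqrt (A * B) := by
        rw [← h7]
        exact mul_le_mul_of_nonneg_left hUB (inv_nonneg.2 hq.le)
      calc ip U (Ko G d W F) ≤ κ / 2 * (Real.sqrt (B / A) * ipw w F F + (Real.sqrt (B / A))⁻¹ * ipw w U U) := h1
        _ ≤ κ / 2 * (Real.sqrt (A * B) + Real.sqrt (A * B)) :=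
            mul_le_mul_of_nonneg_left (add_le_add h8 h9) (by linarith)
        _ = _ := by ring
    · intro x hx _
      show σ * max (f x - s) 0 = 0
      rw [max_eq_right (by linarith), mul_zero]
    · intro x _ hx
      show σ⁻¹ * max (u x - s) 0 = 0
      rw [max_eq_right (by linarith), mul_zero]
  -- the two error terms
  have hsplit : B = ip U (Ko G d W F) + ∑ x, w x * ((u x - U x) * To G d W F x) +
      ∑ x, w x * (u x * To G d W (fun x => f x - F x) x) := by
    have h1 : u = fun x => 1 * To G d W F x + 1 * To G d W (fun x => f x - F x) x := by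
      rw [← To_lin, hu]
      congr 1
      funext x
      ring
    have h2 : B = ∑ x, w x * (u x * To G d W F x) + ∑ x, w x * (u x * To G d W (fun x => f x - F x) x) := by
      rw [hBd]
      unfold ipw
      rw [← Finset.sum_add_distrib]
      refine Finset.sum_congr rfl fun x _ => ?_
      have h3 := congrFun h1 x
      simp only [one_mul] at h3
      calc w x * (u x * u x) = w x * (u x * (To G d W F x + To G d W (fun x => f x - F x) x)) := by rw [← h3]
        _ = _ := by ring
    have h4 : ip U (Ko G d W F) = ∑ x, w x * (U x * To G d W F x) := (ipw_To hr hd U F).symm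
    rw [h2, h4]
    congr 1
    rw [← Finset.sum_add_distrib]
    exact Finset.sum_congr rfl fun x _ => by ring
  have hTF0 : ∀ x, 0 ≤ To G d W F x := fun x => To_nonneg hr hd F0 x
  have herr1 : ∑ x, w x * ((u x - U x) * To G d W F x) ≤ s * m₀ := by
    calc ∑ x, w x * ((u x - U x) * To G d W F x) ≤ ∑ x, s * (w x * To G d W F x) := by
          refine Finset.sum_le_sum fun x _ => ?_
          have h1 := mul_le_mul_of_nonneg_left (mul_le_mul_of_nonneg_right (uU x) (hTF0 x)) (w0 x)
          linarith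
      _ = s * ∑ x, w x * F x := by rw [← Finset.mul_sum, hw, sum_To hr hd]
      _ ≤ s * m₀ := by
          refine mul_le_mul_of_nonneg_left ?_ hs0.le
          exact (Finset.sum_le_sum fun x _ => mul_le_mul_of_nonneg_left (Ff x) (w0 x)).trans hs
  have herr2 : ∑ x, w x * (u x * To G d W (fun x => f x - F x) x) ≤ s * m₀ := by
    have h1 : ∀ x, To G d W (fun x => f x - F x) x ≤ s := To_le hr hd hs0.le fF
    calc ∑ x, w x * (u x * To G d W (fun x => f x - F x) x) ≤ ∑ x, s * (w x * u x) := by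
          refine Finset.sum_le_sum fun x _ => ?_
          have h2 := mul_le_mul_of_nonneg_left (mul_le_mul_of_nonneg_left (h1 x) (u0 x)) (w0 x)
          linarith
      _ = s * ∑ x, w x * u x := by rw [← Finset.mul_sum]
      _ ≤ s * m₀ := mul_le_mul_of_nonneg_left hus hs0.le
  linarith

/-- Consequence: as long as `A` is not too small a step multiplies it by at most `κ₁ ^ 2`. -/
theorem decay_sq {A B κ κ₁ E : ℝ} (hE : 0 < E) (hκ : 0 ≤ κ) (h1 : κ < κ₁)
    (hA : E / (κ₁ * (κ₁ - κ)) < A) (hB0 : 0 ≤ B) (h : B ≤ κ * Real.sqrt (A * B) + E) : B ≤ κ₁ ^ 2 * A := by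
  by_contra hcon
  push Not at hcon
  have hκ1 : 0 < κ₁ := by linarith
  have hd : 0 < κ₁ - κ := by linarith
  have hA0 : 0 < A := lt_trans (by positivity) hA
  have h3 : κ₁ * A ≤ Real.sqrt (A * B) := by
    refine Real.le_sqrt_of_sq_le ?_
    nlinarith
  have h4 : κ₁ * Real.sqrt (A * B) ≤ B := by
    have h5 : Real.sqrt (A * B) ≤ B / κ₁ := by
      rw [Real.sqrt_le_left (by positivity), div_pow, le_div_iff₀ (by positivity)]
      nlinarith
    rw [le_div_iff₀ hκ1] at h5
    linarith
  have h6 : (κ₁ - κ) * Real.sqrt (A * B) ≤ E := by linarith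
  have h7 : (κ₁ - κ) * (κ₁ * A) ≤ E := (mul_le_mul_of_nonneg_left h3 hd.le).trans h6
  rw [div_lt_iff₀ (by positivity)] at hA
  linarith

/-- Log-convexity of the norms of the iterates. -/
theorem logconvT (hr : Regular G d) (hd : 1 ≤ d) {g : V → ℝ} {c : ℝ} (hc : 0 ≤ c)
    (h : c * ipw (om G d W) g g ≤ ipw (om G d W) g (To G d W g)) (j : ℕ) :
    c ^ (2 * j) * ipw (om G d W) g g ≤ ipw (om G d W) ((To G d W)^[j] g) ((To G d W)^[j] g) := by
  have w0 : ∀ x, 0 ≤ om G d W x := fun x => om_nonneg hr hd x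
  have hsymm : ∀ f g : V → ℝ, ipw (om G d W) f (To G d W g) = ipw (om G d W) (To G d W f) g :=
    fun f g => To_symm hr hd f g
  set w := om G d W with hw
  set K := To G d W with hK
  have nn : ∀ j, 0 ≤ ipw w (K^[j] g) (K^[j] g) := fun j => ipw_self_nonneg w0 _
  have hlc : ∀ j, ipw w (K^[j + 1] g) (K^[j + 1] g) ^ 2 ≤
      ipw w (K^[j] g) (K^[j] g) * ipw w (K^[j + 2] g) (K^[j + 2] g) := by
    intro j
    have h1 : ipw w (K^[j + 1] g) (K^[j + 1] g) = ipw w (K^[j] g) (K^[j + 2] g) := by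
      rw [Function.iterate_succ_apply' K (j + 1) g, hsymm, ← Function.iterate_succ_apply' K j g]
    rw [h1]
    exact ipw_cs w0 _ _
  have hst : ∀ j, c ^ 2 * ipw w (K^[j] g) (K^[j] g) ≤ ipw w (K^[j + 1] g) (K^[j + 1] g) := by
    intro j
    induction j with
    | zero =>
      have h1 := ipw_cs w0 g (K g)
      have h2 : (c * ipw w g g) ^ 2 ≤ ipw w g (K g) ^ 2 :=
        pow_le_pow_left₀ (mul_nonneg hc (ipw_self_nonneg w0 g)) h 2
      have h3 : K^[0] g = g := rfl
      have h4 : K^[0 + 1] g = K g := rfl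
      rw [h3, h4]
      rcases (ipw_self_nonneg w0 g).eq_or_lt with h0 | h0
      · rw [← h0, mul_zero]
        exact ipw_self_nonneg w0 _
      · have h5 : ipw w g g * (c ^ 2 * ipw w g g) ≤ ipw w g g * ipw w (K g) (K g) := by nlinarith
        exact le_of_mul_le_mul_left h5 h0
    | succ j ih =>
      have hl := hlc j
      have hn0 := nn j
      have hn1 := nn (j + 1)
      have hn2 := nn (j + 2)
      rw [show j + 1 + 1 = j + 2 by ring]
      rcases hn1.eq_or_lt with h1 | h1
      · rw [← h1, mul_zero]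
        exact hn2
      · have hpos : 0 < ipw w (K^[j] g) (K^[j] g) := by
          rcases hn0.eq_or_lt with h3 | h3
          · rw [← h3, zero_mul] at hl
            have := pow_pos h1 2
            linarith
          · exact h3
        have h4 : ipw w (K^[j] g) (K^[j] g) * (c ^ 2 * ipw w (K^[j + 1] g) (K^[j + 1] g)) ≤
            ipw w (K^[j] g) (K^[j] g) * ipw w (K^[j + 2] g) (K^[j + 2] g) := by
          calc ipw w (K^[j] g) (K^[j] g) * (c ^ 2 * ipw w (K^[j + 1] g) (K^[j + 1] g))
              = (c ^ 2 * ipw w (K^[j] g) (K^[j] g)) * ipw w (K^[j + 1] g) (K^[j + 1] g) := by ring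
            _ ≤ ipw w (K^[j + 1] g) (K^[j + 1] g) * ipw w (K^[j + 1] g) (K^[j + 1] g) :=
                mul_le_mul_of_nonneg_right ih h1.le
            _ = ipw w (K^[j + 1] g) (K^[j + 1] g) ^ 2 := by ring
            _ ≤ _ := hl
        exact le_of_mul_le_mul_left h4 hpos
  induction j with
  | zero =>
    have h2 : K^[0] g = g := rfl
    rw [h2, Nat.mul_zero, pow_zero, one_mul]
  | succ j ih =>
    calc c ^ (2 * (j + 1)) * ipw w g g = c ^ 2 * (c ^ (2 * j) * ipw w g g) := by
          rw [show 2 * (j + 1) = 2 * j + 2 by ring, pow_add]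
          ring
      _ ≤ c ^ 2 * ipw w (K^[j] g) (K^[j] g) := mul_le_mul_of_nonneg_left ih (by positivity)
      _ ≤ _ := hst j

end

end Pool.Agent.Lib.MP_8d8c46_lc.Nw
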