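import Pool.Agent.Lib.MP_8d8c46_lc.Mg.G016

/-!
# Symmetric threshold: definitions
-/

set_option autoImplicit false

open scoped Classical
open Finset

namespace Pool.Agent.Lib.MP_8d8c46_lc.Nw

open Pool.Agent.Lib.MP_8d8c46_lc.CW

/-- The exponent `2 log ((4 - 9 η) / (4 - 5 η)) / log (η (2 - η))`. It lies between `0` and `1` for
`0 < η < 6 / 25`, and behaves like `2 η / log (1 / η)` for small `η`. -/
noncomputable def expo (η : ℝ) : ℝ :=
  2 * Real.log ((4 - 9 * η) / (4 - 5 * η)) / Real.log (η * (2 - η))

/-- the norm bound `2 √(θ (1 - θ))` of the operator on small sets, `θ = (1 + ρ) η / 2` -/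
noncomputable def kap (ρ η : ℝ) : ℝ := 2 * Real.sqrt ((1 + ρ) * η / 2 * (1 - (1 + ρ) * η / 2))

section
variable {V : Type} [Fintype V]

/-- the part of `f` on `W` -/
noncomputable def rs (W : Finset V) (f : V → ℝ) (x : V) : ℝ := if x ∈ W then f x else 0

/-- the adjacency operator divided by `d`, without the edges inside `W` -/
noncomputable def Ko (G : SimpleGraph V) (d : ℕ) (W : Finset V) (f : V → ℝ) (x : V) : ℝ :=
  Mo G d f x - rs W (Mo G d (rs W f)) x

/-- the degree without the edges inside `W`, divided by `d` -/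
noncomputable def om (G : SimpleGraph V) (d : ℕ) (W : Finset V) (x : V) : ℝ :=
  1 - rs W (Mo G d (rs W fun _ => 1)) x

/-- the averaging operator of the graph without the edges inside `W` -/
noncomputable def To (G : SimpleGraph V) (d : ℕ) (W : Finset V) (f : V → ℝ) (x : V) : ℝ :=
  Ko G d W f x / om G d W x

/-- the scalar product with the weight `w` -/
noncomputable def ipw (w f g : V → ℝ) : ℝ := ∑ x, w x * (f x * g x)

/-- twice the number of the edges inside `U`, minus `τ` times the number of the vertices of `U` -/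
noncomputable def FF (G : SimpleGraph V) (τ : ℝ) (U : Finset V) : ℝ := (inside G U : ℝ) - τ * U.card

/-- `R` has the largest value of `FF` among its subsets -/
def PS (G : SimpleGraph V) (τ : ℝ) (R : Finset V) : Prop := ∀ U ⊆ R, FF G τ U ≤ FF G τ R

/-- the extension of `FF` to functions -/
noncomputable def LL (G : SimpleGraph V) (τ : ℝ) (q : V → ℝ) : ℝ :=
  (∑ x, ∑ y, if G.Adj x y then min (q x) (q y) else 0) - τ * ∑ x, q x

end

section
variable {r : ℕ} {X : Bool → Type} {G : ∀ i, SimpleGraph (X i)} [∀ i, Fintype (X i)]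

/-- `R` is measurable, has at most `b` elements, and `U ∪ R` has the property `PS` -/
def RT (S : Sys r X G) (τ b : ℝ) (i : Bool) (U R : Finset (X i)) : Prop :=
  (∃ t, MSet S i t R) ∧ (R.card : ℝ) ≤ b ∧ PS (G i) τ (U ∪ R)

/-- start with the empty set and add in each step all sets `R` as above -/
noncomputable def WS (S : Sys r X G) (τ b : ℝ) (i : Bool) : ℕ → Finset (X i)
  | 0 => ∅
  | m + 1 => WS S τ b i m ∪ (univ.filter (RT S τ b i (WS S τ b i m))).biUnion id

/-- the union -/
noncomputable def WT (S : Sys r X G) (τ b : ℝ) (i : Bool) : Finset (X i) :=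
  univ.filter fun x => ∃ m, x ∈ WS S τ b i m

end

/-- A stable system for a Yes instance `G false` with the set `A` and a No instance `G true`; `N = δ n`; the numbers
`σ, ρ, lam, kp` are close to `0`, `0`, `(4 - 9 η) / (4 - 5 η)`, `√(η (2 - η))`. -/
structure Data (r : ℕ) (X : Bool → Type) [∀ i, Fintype (X i)] (G : ∀ i, SimpleGraph (X i)) where
  S : Sys r X G
  d : ℕ
  N : ℕ
  η : ℝ
  A : Finset (X false)
  hd : 1 ≤ d
  reg : ∀ i, Regular (G i) d
  hN : 1 ≤ N
  hcard : Fintype.card (X false) = Fintype.card (X true)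
  hNn : N ≤ Fintype.card (X false)
  hη0 : 0 < η
  hη1 : η < 6 / 25
  no : ∀ T : Finset (X true), T.card = N → (inside (G true) T : ℝ) ≤ η * (d * N)
  hA : A.card = N
  yes : (1 - η) * (d * N) ≤ (inside (G false) A : ℝ)
  σ : ℝ
  ρ : ℝ
  lam : ℝ
  kp : ℝ
  hσ0 : 0 < σ
  hσ1 : σ ≤ 1 / 64
  hρ0 : 0 < ρ
  hρ1 : ρ ≤ 1
  hlam0 : 0 < lam
  hlam1 : lam < 1
  hlam : (1 - lam) * (5 / 4 * ((1 + σ) * η)) ≤ 1 - η - lam
  hkp : kap ρ η < kp
  big : 4 ≤ σ ^ 2 * (η ^ 2 * N)

namespace Data

variable {r : ℕ} {X : Bool → Type} [∀ i, Fintype (X i)] {G : ∀ i, SimpleGraph (X i)} (D : Data r X G)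

/-- the exceptional set -/
noncomputable def W : Finset (X false) := WT D.S ((1 + D.ρ) * D.η * D.d) (D.ρ / 2 * D.N) false

/-- the weight -/
noncomputable def w : X false → ℝ := om (G false) D.d D.W

/-- the indicator function of `A` -/
noncomputable def h : X false → ℝ := fun x => if x ∈ D.A then 1 else 0

/-- the normalised adjacency operator of `G false` -/
noncomputable def M (f : X false → ℝ) : X false → ℝ := Mo (G false) D.d f

/-- the adjacency operator divided by `d`, without the edges inside `W` -/
noncomputable def K (f : X false → ℝ) : X false → ℝ := Ko (G false) D.d D.W f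

/-- the averaging operator without the edges inside `W` -/
noncomputable def T (f : X false → ℝ) : X false → ℝ := To (G false) D.d D.W f

/-- the projection of `h` to the `t`-measurable functions -/
noncomputable def f (t : Fin r → X false) : X false → ℝ := avg (D.S.c false t) D.h

/-- `h` minus its projection -/
noncomputable def g (t : Fin r → X false) : X false → ℝ := fun x => D.h x - D.f t x

/-- the constant in the decay of the walk -/
noncomputable def C : ℝ := 8 / D.ρ / (D.kp * (D.kp - kap D.ρ D.η)) + 1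

end Data

end Pool.Agent.Lib.MP_8d8c46_lc.Nw
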