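import Pool.Agent.Lib.MP_8d8c46_lc.Nw.Dec

/-!
# Symmetric threshold: the energy increment
-/

set_option autoImplicit false

open scoped Classical
open Finset

namespace Pool.Agent.Lib.MP_8d8c46_lc.Nw

open Pool.Agent.Lib.MP_8d8c46_lc.CW

theorem kap_nonneg (ρ η : ℝ) : 0 ≤ kap ρ η := mul_nonneg (by norm_num) (Real.sqrt_nonneg _)

section
variable {V : Type} [Fintype V] {G : SimpleGraph V} {d : ℕ}

/-- `∑ a x a y ≤ ∑ a x ^ 2 deg x` for the edges inside `W`. -/
theorem inner_le (hd : 1 ≤ d) (W : Finset V) (a : V → ℝ) :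
    ip (rs W a) (Mo G d (rs W a)) ≤ ∑ x, a x ^ 2 * rs W (Mo G d (rs W fun _ => 1)) x := by
  have hd' : (0 : ℝ) < d := by exact_mod_cast hd
  have h1 : ip (rs W a) (Mo G d (rs W a)) =
      (∑ x, ∑ y, if G.Adj x y then rs W a x * rs W a y else 0) / d := by
    unfold ip Mo
    rw [Finset.sum_div]
    refine Finset.sum_congr rfl fun x _ => ?_
    rw [mul_div_assoc', Finset.mul_sum]
    congr 1
    refine Finset.sum_congr rfl fun y _ => ?_
    split_ifs <;> ring
  have h2 : ∑ x, a x ^ 2 * rs W (Mo G d (rs W fun _ => 1)) x =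
      (∑ x, ∑ y, if G.Adj x y then (rs W a x) ^ 2 * rs W (fun _ => 1) y else 0) / d := by
    rw [Finset.sum_div]
    refine Finset.sum_congr rfl fun x _ => ?_
    by_cases hx : x ∈ W
    · have h3 : rs W a x = a x := by
        unfold rs
        rw [if_pos hx]
      have h4 : rs W (Mo G d (rs W fun _ => 1)) x = Mo G d (rs W fun _ => 1) x := by
        unfold rs
        rw [if_pos hx]
      rw [h3, h4]
      unfold Mo
      rw [mul_div_assoc', Finset.mul_sum]
      congr 1
      refine Finset.sum_congr rfl fun y _ => ?_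
      split_ifs <;> ring
    · have h3 : rs W a x = 0 := by
        unfold rs
        rw [if_neg hx]
      have h4 : rs W (Mo G d (rs W fun _ => 1)) x = 0 := by
        unfold rs
        rw [if_neg hx]
      rw [h3, h4]
      simp
  rw [h1, h2]
  refine div_le_div_of_nonneg_right ?_ hd'.le
  have hswap : ∑ x, ∑ y, (if G.Adj x y then (rs W a x) ^ 2 * rs W (fun _ => 1) y else 0) =
      ∑ x, ∑ y, (if G.Adj x y then (rs W a y) ^ 2 * rs W (fun _ => 1) x else 0) := by
    rw [Finset.sum_comm]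
    refine Finset.sum_congr rfl fun x _ => Finset.sum_congr rfl fun y _ => ?_
    exact if_congr (G.adj_comm y x) rfl rfl
  have hterm : ∀ x y, (if G.Adj x y then rs W a x * rs W a y else 0) ≤
      1 / 2 * (if G.Adj x y then (rs W a x) ^ 2 * rs W (fun _ => 1) y else 0) +
      1 / 2 * (if G.Adj x y then (rs W a y) ^ 2 * rs W (fun _ => 1) x else 0) := by
    intro x y
    by_cases h : G.Adj x y
    · rw [if_pos h, if_pos h, if_pos h]
      unfold rs
      by_cases hx : x ∈ W <;> by_cases hy : y ∈ W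
      · simp only [hx, hy, if_true]
        nlinarith [sq_nonneg (a x - a y)]
      · simp [hx, hy]
      · simp [hx, hy]
      · simp [hx, hy]
    · rw [if_neg h, if_neg h, if_neg h]
      norm_num
  have hsum := Finset.sum_le_sum fun (x : V) (_ : x ∈ univ) => Finset.sum_le_sum fun (y : V) (_ : y ∈ univ) => hterm x y
  refine hsum.trans (le_of_eq ?_)
  have h5 : ∑ x, ∑ y, (1 / 2 * (if G.Adj x y then (rs W a x) ^ 2 * rs W (fun _ => 1) y else 0) +
      1 / 2 * (if G.Adj x y then (rs W a y) ^ 2 * rs W (fun _ => 1) x else 0)) =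
      1 / 2 * (∑ x, ∑ y, (if G.Adj x y then (rs W a x) ^ 2 * rs W (fun _ => 1) y else 0)) +
      1 / 2 * (∑ x, ∑ y, (if G.Adj x y then (rs W a y) ^ 2 * rs W (fun _ => 1) x else 0)) := by
    rw [Finset.mul_sum, Finset.mul_sum, ← Finset.sum_add_distrib]
    refine Finset.sum_congr rfl fun x _ => ?_
    rw [Finset.mul_sum, Finset.mul_sum, ← Finset.sum_add_distrib]
  rw [h5, ← hswap]
  ring

theorem markov {s m₀ : ℝ} (hs : 0 < s) {w f : V → ℝ} {W : Finset V} (w0 : ∀ x, 0 ≤ w x) (w1 : ∀ x, x ∉ W → w x = 1)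
    (f0 : ∀ x, 0 ≤ f x) (h1 : ∑ x, w x * f x ≤ m₀) :
    (((univ.filter fun x => s < f x) \ W).card : ℝ) ≤ m₀ / s := by
  rw [le_div_iff₀ hs]
  calc (((univ.filter fun x => s < f x) \ W).card : ℝ) * s = ∑ _x ∈ (univ.filter fun x => s < f x) \ W, s := by
        rw [Finset.sum_const, nsmul_eq_mul]
    _ ≤ ∑ x ∈ (univ.filter fun x => s < f x) \ W, w x * f x := by
        refine Finset.sum_le_sum fun x hx => ?_
        rw [mem_sdiff] at hx
        rw [w1 x hx.2, one_mul]
        exact (Finset.mem_filter.1 hx.1).2.le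
    _ ≤ ∑ x, w x * f x :=
        Finset.sum_le_sum_of_subset_of_nonneg (Finset.subset_univ _) fun x _ _ => mul_nonneg (w0 x) (f0 x)
    _ ≤ m₀ := h1

end

section
variable {r : ℕ} {X : Bool → Type} {G : ∀ i, SimpleGraph (X i)} [∀ i, Fintype (X i)]

omit [∀ i, Fintype (X i)] in
theorem meas_rs (S : Sys r X G) {i : Bool} {t : Fin r → X i} {W : Finset (X i)} (hW : MSet S i t W)
    {f : X i → ℝ} (hf : Meas S i t f) : Meas S i t (rs W f) := by
  intro y z hyz
  unfold rs
  by_cases h : y ∈ W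
  · rw [if_pos h, if_pos (hW y z hyz h), hf y z hyz]
  · rw [if_neg h, if_neg fun h' => h (hW z y hyz.symm h')]

theorem meas_Ko (S : Sys r X G) {i : Bool} {t : Fin r → X i} {W : Finset (X i)} (hW : MSet S i t W)
    {f : X i → ℝ} (hf : Meas S i t f) (d : ℕ) : Meas S i t (Ko (G i) d W f) := by
  intro y z hyz
  have h1 := meas_Mo S hf d y z hyz
  have h2 := meas_rs S hW (meas_Mo S (meas_rs S hW hf) d) y z hyz
  unfold Ko
  rw [h1, h2]

theorem meas_om (S : Sys r X G) {i : Bool} {t : Fin r → X i} {W : Finset (X i)} (hW : MSet S i t W)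
    (d : ℕ) : Meas S i t (om (G i) d W) := by
  intro y z hyz
  have h1 : Meas S i t (rs W fun _ => (1 : ℝ)) := meas_rs S hW fun _ _ _ => rfl
  have h2 := meas_rs S hW (meas_Mo S h1 d) y z hyz
  unfold om
  rw [h2]

theorem meas_To (S : Sys r X G) {i : Bool} {t : Fin r → X i} {W : Finset (X i)} (hW : MSet S i t W)
    {f : X i → ℝ} (hf : Meas S i t f) (d : ℕ) : Meas S i t (To (G i) d W f) := by
  intro y z hyz
  have h1 := meas_Ko S hW hf d y z hyz
  have h2 := meas_om S hW d y z hyz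
  unfold To
  rw [h1, h2]

end

section
variable {r : ℕ} {X : Bool → Type} [∀ i, Fintype (X i)] {G : ∀ i, SimpleGraph (X i)} (D : Data r X G)

include D in
theorem nonempty' : Nonempty (X false) := by
  have h1 := D.hN
  have h2 := D.hNn
  exact Fintype.card_pos_iff.1 (by omega)

theorem card_W : (1 + D.ρ) * (D.W.card : ℝ) ≤ D.N := by
  have hne := nonempty' D
  have h1 := WT_small D.S (i := true) D.hd (D.hcard ▸ D.hNn) D.hη0 D.hρ0 D.hρ1 D.no
  rw [← WT_card D.S] at h1
  exact h1

theorem w_nonneg (x : X false) : 0 ≤ D.w x := om_nonneg (D.reg false) D.hd x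

theorem w_le (x : X false) : D.w x ≤ 1 := om_le x

theorem h_mem (x : X false) : 0 ≤ D.h x ∧ D.h x ≤ 1 := by
  unfold Data.h
  split_ifs <;> norm_num

theorem h_sum : ∑ x, D.h x = D.N := by
  unfold Data.h
  rw [Finset.sum_boole, ← D.hA]
  congr 2
  ext x
  simp

theorem h_sq (x : X false) : D.h x * D.h x = D.h x := by
  unfold Data.h
  split_ifs <;> norm_num

theorem h_norm : ip D.h D.h = D.N := by
  rw [← h_sum D]
  unfold ip
  exact Finset.sum_congr rfl fun x _ => h_sq D x

theorem h_M : (1 - D.η) * D.N ≤ ip D.h (D.M D.h) := by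
  have hd : (0 : ℝ) < D.d := Nat.cast_pos.2 D.hd
  have h1 : (D.d : ℝ) * ip D.h (D.M D.h) = qf (G false) D.h := qf_eq D.hd D.h
  have h3 : qf (G false) D.h = (inside (G false) D.A : ℝ) := by
    unfold Data.h
    exact qf_ind _
  have h6 := D.yes
  have h8 : (D.d : ℝ) * ((1 - D.η) * D.N) ≤ D.d * ip D.h (D.M D.h) := by
    rw [h1, h3]
    linarith
  exact le_of_mul_le_mul_left h8 hd

theorem meas_small {t : Fin r → X false} {φ : X false → ℝ} (hφ : Meas D.S false t φ)
    (h01 : ∀ x, 0 ≤ φ x ∧ φ x ≤ 1) (hs : ∑ x, φ x ≤ D.N) : ip φ (D.M φ) ≤ (1 + D.σ) * (D.η * D.N) := by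
  have hd : (0 : ℝ) < D.d := Nat.cast_pos.2 D.hd
  have hη := D.hη0
  have hσ := D.hσ0
  have hN : (0 : ℝ) ≤ D.N := Nat.cast_nonneg _
  obtain ⟨e, he1, he2⟩ := transfer D.S hφ
  have h1 : (D.d : ℝ) * ip φ (D.M φ) = qf (G false) φ := qf_eq D.hd φ
  have h2 := round_no (D.reg true) D.hN (D.hcard ▸ D.hNn) D.no (f := fun x => φ (e.symm x))
    (fun x => h01 _) (by rw [he1]; exact hs)
  rw [he2, ← h1] at h2
  have h3 : Real.sqrt D.N ≤ D.σ * (D.η * D.N) / 2 := by
    refine Real.sqrt_le_iff.2 ⟨by positivity, ?_⟩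
    have h4 := mul_le_mul_of_nonneg_right D.big hN
    nlinarith
  have h5 : 2 * (D.d : ℝ) * Real.sqrt D.N ≤ 2 * D.d * (D.σ * (D.η * D.N) / 2) :=
    mul_le_mul_of_nonneg_left h3 (by positivity)
  have h6 : (D.d : ℝ) * ip φ (D.M φ) ≤ D.d * ((1 + D.σ) * (D.η * D.N)) := by nlinarith
  exact le_of_mul_le_mul_left h6 hd

theorem f_meas (t : Fin r → X false) : Meas D.S false t (D.f t) := by
  intro y z h
  exact avg_meas (D.S.c false t) D.h h

theorem f_mem (t : Fin r → X false) (x : X false) : 0 ≤ D.f t x ∧ D.f t x ≤ 1 :=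
  avg_mem (D.S.c false t) (h_mem D) x

theorem f_M (t : Fin r → X false) : ip (D.f t) (D.M (D.f t)) ≤ (1 + D.σ) * (D.η * D.N) := by
  refine meas_small D (f_meas D t) (f_mem D t) ?_
  have h1 : ∑ x, D.f t x = ∑ x, D.h x := avg_sum (D.S.c false t) D.h
  rw [h1, h_sum]

theorem g_M_aux (t : Fin r → X false) :
    (1 - D.η) * D.N - ip (D.f t) (D.M (D.f t)) ≤ ip (D.g t) (D.M (D.g t)) := by
  have h1 : ip (D.g t) (D.M (D.f t)) = 0 :=
    avg_orth (D.S.c false t) D.h (D.M (D.f t)) (fun x y hxy => meas_Mo D.S (f_meas D t) D.d x y hxy)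
  have h2 : D.M (D.g t) = fun x => 1 * D.M D.h x + (-1) * D.M (D.f t) x := by
    have h3 : D.g t = fun x => 1 * D.h x + (-1) * D.f t x := by
      funext x
      show D.h x - D.f t x = _
      ring
    show Mo (G false) D.d (D.g t) = _
    rw [h3, Mo_lin]
    rfl
  have h4 : ∀ φ : X false → ℝ, ip φ (D.M (D.g t)) = ip φ (D.M D.h) - ip φ (D.M (D.f t)) := by
    intro φ
    rw [h2, ip_comm, ip_lin, ip_comm (D.M D.h), ip_comm (D.M (D.f t))]
    ring
  have h5 : ∀ ψ : X false → ℝ, ip (D.g t) ψ = ip D.h ψ - ip (D.f t) ψ := fun ψ => ip_sub _ _ _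
  have h6 : ip (D.f t) (D.M D.h) = ip D.h (D.M (D.f t)) := by
    rw [ip_comm]
    exact (ip_Mo_symm (G := G false) (d := D.d) D.h (D.f t)).symm
  have h7 := h5 (D.M (D.f t))
  rw [h1] at h7
  have h8 := h4 (D.g t)
  rw [h1, h5 (D.M D.h), h6] at h8
  have h9 := h_M D
  rw [h8]
  linarith

theorem W_meas (t : Fin r → X false) : MSet D.S false t D.W := W_mset D.S _ _ _ t

/-- The part of `g` on the exceptional set. -/
theorem loss (t : Fin r → X false) :
    ∑ x, D.g t x ^ 2 * rs D.W (Mo (G false) D.d (rs D.W fun _ => 1)) x ≤ 1 / 4 * ((1 + D.σ) * (D.η * D.N)) := by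
  have hd : (0 : ℝ) < D.d := Nat.cast_pos.2 D.hd
  set w : X false → ℝ := rs D.W (Mo (G false) D.d (rs D.W fun _ => 1)) with hw
  have hone : Meas D.S false t (rs D.W fun _ => (1 : ℝ)) := meas_rs D.S (W_meas D t) (fun _ _ _ => rfl)
  have hwm : Meas D.S false t w := meas_rs D.S (W_meas D t) (meas_Mo D.S hone D.d)
  have one0 : ∀ x, 0 ≤ rs D.W (fun _ => (1 : ℝ)) x ∧ rs D.W (fun _ => (1 : ℝ)) x ≤ 1 := by
    intro x
    unfold rs
    split_ifs <;> norm_num
  have w0 : ∀ x, 0 ≤ w x := by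
    intro x
    rw [hw]
    unfold rs
    split_ifs
    · exact Mo_nonneg (fun y => (one0 y).1) x
    · exact le_rfl
  have hwsum : ∑ x, w x ≤ (1 + D.σ) * (D.η * D.N) := by
    have h1 : ∑ x, w x = ip (rs D.W fun _ => (1 : ℝ)) (D.M (rs D.W fun _ => (1 : ℝ))) := by
      unfold ip
      refine Finset.sum_congr rfl fun x _ => ?_
      rw [hw]
      show rs D.W (Mo (G false) D.d (rs D.W fun _ => 1)) x = rs D.W (fun _ => 1) x * Mo (G false) D.d (rs D.W fun _ => 1) x
      by_cases hx : x ∈ D.W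
      · have h3 : rs D.W (Mo (G false) D.d (rs D.W fun _ => 1)) x = Mo (G false) D.d (rs D.W fun _ => 1) x := by
          conv_lhs => unfold rs
          rw [if_pos hx]
          rfl
        have h4 : rs D.W (fun _ => (1 : ℝ)) x = 1 := by
          unfold rs
          rw [if_pos hx]
        rw [h3, h4, one_mul]
      · have h3 : rs D.W (Mo (G false) D.d (rs D.W fun _ => 1)) x = 0 := by
          conv_lhs => unfold rs
          rw [if_neg hx]
        have h4 : rs D.W (fun _ => (1 : ℝ)) x = 0 := by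
          unfold rs
          rw [if_neg hx]
        rw [h3, h4, zero_mul]
    rw [h1]
    refine meas_small D hone one0 ?_
    have h2 : ∑ x, rs D.W (fun _ => (1 : ℝ)) x = D.W.card := by
      unfold rs
      rw [Finset.sum_boole]
      congr 2
      ext x
      simp
    rw [h2]
    have h3 := card_W D
    have h4 : (0 : ℝ) ≤ D.W.card := Nat.cast_nonneg _
    have h5 : 0 ≤ D.ρ * (D.W.card : ℝ) := mul_nonneg D.hρ0.le h4
    linarith
  have hkey : ∑ x, D.g t x ^ 2 * w x = ∑ x, (D.f t x - D.f t x ^ 2) * w x := by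
    have h1 : ip (D.f t) w = ip D.h w := avg_ip (D.S.c false t) D.h w hwm
    have h2 : ip (D.f t) (fun x => D.f t x * w x) = ip D.h (fun x => D.f t x * w x) :=
      avg_ip (D.S.c false t) D.h _ fun x y hxy => by
        show D.f t x * w x = D.f t y * w y
        rw [f_meas D t x y hxy, hwm x y hxy]
    have h3 : ∑ x, D.g t x ^ 2 * w x =
        ip D.h w - 2 * ip D.h (fun x => D.f t x * w x) + ip (D.f t) (fun x => D.f t x * w x) := by
      unfold ip
      rw [Finset.mul_sum, ← Finset.sum_sub_distrib, ← Finset.sum_add_distrib]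
      refine Finset.sum_congr rfl fun x _ => ?_
      have h4 := h_sq D x
      show (D.h x - D.f t x) ^ 2 * w x = _
      have h5 : (D.h x - D.f t x) ^ 2 = D.h x * D.h x - 2 * D.h x * D.f t x + D.f t x ^ 2 := by ring
      rw [h5, h4]
      ring
    rw [h3, ← h1, ← h2]
    unfold ip
    rw [Finset.mul_sum, ← Finset.sum_sub_distrib, ← Finset.sum_add_distrib]
    refine Finset.sum_congr rfl fun x _ => ?_
    ring
  have hfin : ∑ x, (D.f t x - D.f t x ^ 2) * w x ≤ 1 / 4 * ∑ x, w x := by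
    rw [Finset.mul_sum]
    refine Finset.sum_le_sum fun x _ => mul_le_mul_of_nonneg_right ?_ (w0 x)
    nlinarith [sq_nonneg (D.f t x - 1 / 2)]
  calc ∑ x, D.g t x ^ 2 * rs D.W (Mo (G false) D.d (rs D.W fun _ => 1)) x
      = ∑ x, D.g t x ^ 2 * w x := rfl
    _ ≤ 1 / 4 * ∑ x, w x := by rw [hkey]; exact hfin
    _ ≤ 1 / 4 * ((1 + D.σ) * (D.η * D.N)) := by linarith

theorem g_K_aux (t : Fin r → X false) :
    (1 - D.η) * D.N - ip (D.f t) (D.M (D.f t)) - ∑ x, D.g t x ^ 2 * rs D.W (Mo (G false) D.d (rs D.W fun _ => 1)) x ≤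
      ip (D.g t) (D.K (D.g t)) := by
  have h1 := g_M_aux D t
  have h2 := inner_le (G := G false) D.hd D.W (D.g t)
  have h3 : ip (D.g t) (D.K (D.g t)) = ip (D.g t) (D.M (D.g t)) -
      ip (rs D.W (D.g t)) (Mo (G false) D.d (rs D.W (D.g t))) := Ko_ip _ _
  rw [h3]
  linarith

theorem g_eq (t : Fin r → X false) : ipw D.w (D.g t) (D.g t) = D.N - ip (D.f t) (D.f t) -
    ∑ x, D.g t x ^ 2 * rs D.W (Mo (G false) D.d (rs D.W fun _ => 1)) x := by
  have h1 : ip (D.g t) (D.g t) = ip D.h D.h - ip (D.f t) (D.f t) := avg_norm (D.S.c false t) D.h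
  rw [← h_norm D, ← h1]
  unfold ipw ip
  rw [← Finset.sum_sub_distrib]
  refine Finset.sum_congr rfl fun x _ => ?_
  show (1 - rs D.W (Mo (G false) D.d (rs D.W fun _ => 1)) x) * (D.g t x * D.g t x) = _
  ring

/-- PROOF: `ip f (M f)` is at most `ip f f` and at most `(1 + σ) η N`. -/
theorem g_K (t : Fin r → X false) : D.lam * ipw D.w (D.g t) (D.g t) ≤ ipw D.w (D.g t) (D.T (D.g t)) := by
  have h0 : ipw D.w (D.g t) (D.T (D.g t)) = ip (D.g t) (D.K (D.g t)) := ipw_To (D.reg false) D.hd _ _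
  rw [h0]
  have h1 := g_K_aux D t
  have h2 := g_eq D t
  have h3 := f_M D t
  have h4 : ip (D.f t) (D.M (D.f t)) ≤ ip (D.f t) (D.f t) := ip_Mo_le (D.reg false) D.hd (D.f t)
  have h5 := D.hlam
  have hN : (0 : ℝ) ≤ D.N := Nat.cast_nonneg _
  have h6 := mul_le_mul_of_nonneg_right h5 hN
  have h7 : D.lam * ip (D.f t) (D.M (D.f t)) ≤ D.lam * ip (D.f t) (D.f t) :=
    mul_le_mul_of_nonneg_left h4 D.hlam0.le
  have hl : 0 ≤ 1 - D.lam := by linarith [D.hlam1]
  have h8 : (1 - D.lam) * ip (D.f t) (D.M (D.f t)) ≤ (1 - D.lam) * ((1 + D.σ) * (D.η * D.N)) :=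
    mul_le_mul_of_nonneg_left h3 hl
  have h9 := mul_le_mul_of_nonneg_left (loss D t) hl
  rw [h2]
  nlinarith

theorem g_norm (t : Fin r → X false) : 2 / 5 * (D.N : ℝ) ≤ ipw D.w (D.g t) (D.g t) := by
  have h1 := g_K_aux D t
  have h2 := f_M D t
  have h3 := loss D t
  have h4 : 2 * ip (D.g t) (D.K (D.g t)) ≤ ipw D.w (D.g t) (D.g t) + ipw D.w (D.g t) (D.g t) :=
    form2 (D.reg false) D.hd _ _
  have h7 := D.hη1
  have h8 : (0 : ℝ) ≤ D.N := Nat.cast_nonneg _
  have h9 : D.η * D.N ≤ 6 / 25 * D.N := mul_le_mul_of_nonneg_right h7.le h8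
  have h10 : (1 + D.σ) * (D.η * D.N) ≤ (1 + 1 / 64) * (6 / 25 * D.N) :=
    mul_le_mul (by linarith [D.hσ1]) h9 (mul_nonneg D.hη0.le h8) (by norm_num)
  linarith

/-- The form of the operator on a small measurable set. -/
theorem opK {t : Fin r → X false} {T : Finset (X false)} (hT : MSet D.S false t T)
    (hc : ((T \ D.W).card : ℝ) ≤ D.ρ / 2 * D.N)
    {F U : X false → ℝ} (hF : ∀ x, x ∉ T → F x = 0) (hU : ∀ x, x ∉ T → U x = 0) :
    ip U (D.K F) ≤ kap D.ρ D.η / 2 * (ipw D.w F F + ipw D.w U U) := by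
  have hη0 := D.hη0
  have hη1 := D.hη1
  have hρ0 := D.hρ0
  have hρ1 := D.hρ1
  have hTW : MSet D.S false t (T \ D.W) := by
    intro y z hyz hy
    rw [mem_sdiff] at hy ⊢
    exact ⟨hT y z hyz hy.1, fun h => hy.2 (W_meas D t z y hyz.symm h)⟩
  have hpeel := peelP D.S (τ := (1 + D.ρ) * D.η * D.d) hTW hc
  have h0 : (1 + D.ρ) * D.η * D.d = 2 * ((1 + D.ρ) * D.η / 2) * D.d := by ring
  have hsub : ∀ x, x ∉ D.W ∪ (T \ D.W) → x ∉ T := by
    intro x hx h
    by_cases hw : x ∈ D.W
    · exact hx (mem_union_left _ hw)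
    · exact hx (mem_union_right _ (mem_sdiff.2 ⟨h, hw⟩))
  have hle : (1 + D.ρ) * D.η / 2 ≤ 1 / 2 := by
    have : (1 + D.ρ) * D.η ≤ 2 * (6 / 25) := mul_le_mul (by linarith) hη1.le hη0.le (by norm_num)
    linarith
  have h1 := bil_op (D.reg false) D.hd (W := D.W) (R := T \ D.W) (θ := (1 + D.ρ) * D.η / 2) (by positivity) hle
    (fun Q hQ => by
      have h2 := hpeel Q hQ
      rw [← h0]
      exact h2) (F := F) (U := U)
    (fun x hx => hF x (hsub x hx)) (fun x hx => hU x (hsub x hx))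
  have h2 : kap D.ρ D.η / 2 = Real.sqrt ((1 + D.ρ) * D.η / 2 * (1 - (1 + D.ρ) * D.η / 2)) := by
    unfold kap
    ring
  rw [h2]
  exact h1

theorem C_ge : 1 ≤ D.C := by
  unfold Data.C
  have h2 := D.hkp
  have h3 := kap_nonneg D.ρ D.η
  have h4 : 0 < D.kp - kap D.ρ D.η := by linarith
  have h5 : 0 < D.kp := by linarith
  have h6 := D.hρ0
  have : 0 ≤ 8 / D.ρ / (D.kp * (D.kp - kap D.ρ D.η)) := by positivity
  linarith

theorem psi_meas (u : Fin r → X false) (p : Fin r) (j : ℕ) : Meas D.S false u (D.T^[j] (pt (u p))) := by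
  induction j with
  | zero => exact meas_pt D.S u p
  | succ j ih =>
    rw [Function.iterate_succ_apply']
    exact meas_To D.S (W_meas D u) ih D.d

theorem psi_norm (hr : 1 ≤ r) {v : X false} (hv : 0 < D.w v) {j : ℕ}
    (hj : (D.kp ^ 2) ^ j ≤ 1 / Fintype.card (X false)) :
    ipw D.w (D.T^[j] (pt v)) (D.T^[j] (pt v)) ≤ D.w v * (D.C / D.N) := by
  have hN : (0 : ℝ) < D.N := by exact_mod_cast D.hN
  have hNn : (D.N : ℝ) ≤ Fintype.card (X false) := by exact_mod_cast D.hNn
  have hcst := C_ge D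
  have hρ0 := D.hρ0
  have hkp := D.hkp
  have hkp0 : 0 < D.kp := lt_of_le_of_lt (kap_nonneg _ _) hkp
  have hkd : 0 < D.kp - kap D.ρ D.η := by linarith
  have hv1 := w_le D v
  have f0 : ∀ x, 0 ≤ pt v x := by
    intro x
    unfold pt
    split_ifs <;> norm_num
  have hs : ∑ x, D.w x * pt v x = D.w v := by
    unfold pt
    rw [Finset.sum_eq_single v]
    · simp
    · intro x _ hx
      simp [hx]
    · intro h
      exact absurd (mem_univ v) h
  have h1 : ipw D.w (pt v) (pt v) = D.w v := by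
    unfold ipw pt
    rw [Finset.sum_eq_single v]
    · simp
    · intro x _ hx
      simp [hx]
    · intro h
      exact absurd (mem_univ v) h
  have hnn : ∀ j x, 0 ≤ D.T^[j] (pt v) x := fun j x => To_iter_nonneg (D.reg false) D.hd f0 j x
  have hsum : ∀ j, ∑ x, D.w x * D.T^[j] (pt v) x = D.w v :=
    fun j => (To_iter_sum (W := D.W) (D.reg false) D.hd (pt v) j).trans hs
  have hm : ∀ j, Meas D.S false (fun _ : Fin r => v) (D.T^[j] (pt v)) :=
    fun j => psi_meas D (fun _ : Fin r => v) ⟨0, hr⟩ j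
  obtain ⟨s, hsd⟩ : ∃ s : ℝ, s = 4 / D.ρ * D.w v / D.N := ⟨_, rfl⟩
  have hs0 : 0 < s := by
    rw [hsd]
    positivity
  have main : ∀ j, ipw D.w (D.T^[j] (pt v)) (D.T^[j] (pt v)) ≤
      max ((D.kp ^ 2) ^ j * D.w v) (D.w v * D.w v * D.C / D.N) := by
    intro j
    induction j with
    | zero =>
      rw [pow_zero, one_mul]
      exact h1.le.trans (le_max_left _ _)
    | succ j ih =>
      set f : X false → ℝ := D.T^[j] (pt v) with hf
      have hstep : D.T^[j + 1] (pt v) = To (G false) D.d D.W f := by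
        rw [Function.iterate_succ_apply']
        rfl
      rw [hstep]
      have hmono : ipw D.w (To (G false) D.d D.W f) (To (G false) D.d D.W f) ≤ ipw D.w f f :=
        norm_To_le (D.reg false) D.hd f
      by_cases hcase : ipw D.w f f ≤ D.w v * D.w v * D.C / D.N
      · exact (hmono.trans hcase).trans (le_max_right _ _)
      · push Not at hcase
        have hle : ipw D.w f f ≤ (D.kp ^ 2) ^ j * D.w v := by
          rcases le_max_iff.1 ih with h | h
          · exact h
          · linarith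
        have hf0 : ∀ x, 0 ≤ f x := hnn j
        have hfs : ∑ x, D.w x * f x = D.w v := hsum j
        have hTf0 : ∀ x, 0 ≤ To (G false) D.d D.W f x := fun x => To_nonneg (D.reg false) D.hd hf0 x
        have hTfs : ∑ x, D.w x * To (G false) D.d D.W f x = D.w v :=
          (sum_To (W := D.W) (D.reg false) D.hd f).trans hfs
        set T : Finset (X false) := (univ.filter fun x => s < f x) ∪
          (univ.filter fun x => s < To (G false) D.d D.W f x) with hT
        have hfm : Meas D.S false (fun _ : Fin r => v) f := hm j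
        have hKm : Meas D.S false (fun _ : Fin r => v) (To (G false) D.d D.W f) :=
          meas_To D.S (W_meas D _) hfm D.d
        have hTm : MSet D.S false (fun _ : Fin r => v) T := by
          intro y z hyz hy
          rw [hT, mem_union, mem_filter, mem_filter] at hy ⊢
          rcases hy with h | h
          · left
            exact ⟨mem_univ _, by rw [← hfm y z hyz]; exact h.2⟩
          · right
            exact ⟨mem_univ _, by rw [← hKm y z hyz]; exact h.2⟩
        have hTc : ((T \ D.W).card : ℝ) ≤ D.ρ / 2 * D.N := by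
          have e1 := markov hs0 (W := D.W) (w_nonneg D) (fun x hx => om_out hx) hf0 hfs.le
          have e2 := markov hs0 (W := D.W) (w_nonneg D) (fun x hx => om_out hx) hTf0 hTfs.le
          have e3 : ((T \ D.W).card : ℝ) ≤ ((univ.filter fun x => s < f x) \ D.W).card +
              ((univ.filter fun x => s < To (G false) D.d D.W f x) \ D.W).card := by
            rw [hT, union_sdiff_distrib]
            exact_mod_cast card_union_le _ _
          have e4 : D.w v / s = D.ρ * D.N / 4 := by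
            rw [hsd]
            field_simp
          rw [e4] at e1 e2
          linarith
        have hnot : ∀ x, x ∉ T → f x ≤ s ∧ To (G false) D.d D.W f x ≤ s := by
          intro x hx
          rw [hT, mem_union, mem_filter, mem_filter] at hx
          push Not at hx
          exact ⟨hx.1 (mem_univ _), hx.2 (mem_univ _)⟩
        have hdec := decayK (D.reg false) D.hd (κ := kap D.ρ D.η) hs0 hf0 (m₀ := D.w v) hfs.le
          (fun F U hF hU => opK D hTm hTc (fun x hx => hF x (hnot x hx).1 (hnot x hx).2)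
            (fun x hx => hU x (hnot x hx).1 (hnot x hx).2)) (kap_nonneg _ _)
        have hE : 2 * (s * D.w v) / (D.kp * (D.kp - kap D.ρ D.η)) < ipw D.w f f := by
          refine lt_trans ?_ hcase
          have h5 : 2 * (s * D.w v) / (D.kp * (D.kp - kap D.ρ D.η)) = D.w v * D.w v * (D.C - 1) / D.N := by
            rw [hsd]
            unfold Data.C
            field_simp
            ring
          rw [h5]
          refine div_lt_div_of_pos_right ?_ hN
          have : 0 < D.w v * D.w v := mul_pos hv hv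
          nlinarith
        have hsq := decay_sq (by positivity) (kap_nonneg _ _) hkp hE
          (ipw_self_nonneg (w_nonneg D) _) hdec
        refine le_trans hsq (le_trans ?_ (le_max_left _ _))
        rw [pow_succ (D.kp ^ 2) j]
        have h6 := mul_le_mul_of_nonneg_left hle (by positivity : 0 ≤ D.kp ^ 2)
        linarith
  refine (main j).trans (max_le ?_ ?_)
  · rw [mul_comm]
    refine mul_le_mul_of_nonneg_left (hj.trans ?_) hv.le
    calc (1 : ℝ) / Fintype.card (X false) ≤ 1 / D.N := one_div_le_one_div_of_le hN hNn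
      _ ≤ D.C / D.N := div_le_div_of_nonneg_right hcst hN.le
  · rw [mul_assoc, mul_div_assoc, mul_div_assoc]
    refine mul_le_mul_of_nonneg_left ?_ hv.le
    have h7 : 0 ≤ D.C / D.N := div_nonneg (by linarith) hN.le
    calc D.w v * (D.C / D.N) ≤ 1 * (D.C / D.N) := mul_le_mul_of_nonneg_right hv1 h7
      _ = D.C / D.N := one_mul _

end

end Pool.Agent.Lib.MP_8d8c46_lc.Nw
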