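import Pool.Agent.Lib.MP_8d8c46_lc.Nw.En

/-!
# Symmetric threshold: iteration of the energy increment, the exponent
-/

set_option autoImplicit false

open scoped Classical
open Finset

namespace Pool.Agent.Lib.MP_8d8c46_lc.Nw

open Pool.Agent.Lib.MP_8d8c46_lc.CW

section
variable {r : ℕ} {X : Bool → Type} [∀ i, Fintype (X i)] {G : ∀ i, SimpleGraph (X i)} (D : Data r X G)

/-- One more seed. PROOF: `Q = ⟨T^j g, T^j g⟩ ≥ λ ^ (2 j) * 2 / 5 * N` with `λ = lam` by log-convexity; some vertex `v` has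
`w v (T^j g) v ^ 2 ≥ Q / n`, and for `ψ = w T^j (pt v)` we have `ip ψ g = w v (T^j g) v` and `ip ψ ψ ≤ w v C / N`. -/
theorem step (hr : 1 ≤ r) {j : ℕ} (hj : (D.kp ^ 2) ^ j ≤ 1 / Fintype.card (X false)) (t : Fin r → X false) :
    ∃ v : X false, ∀ u : Fin r → X false, (∀ p, ∃ q, t p = u q) → (∃ q, u q = v) →
      ip (D.f t) (D.f t) +
        2 / 5 * D.lam ^ (2 * j) * (D.N : ℝ) ^ 2 / (D.C * Fintype.card (X false)) ≤
        ip (D.f u) (D.f u) := by
  have hN : (1 : ℝ) ≤ D.N := by exact_mod_cast D.hN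
  have hNn : (D.N : ℝ) ≤ Fintype.card (X false) := by exact_mod_cast D.hNn
  obtain ⟨n, hn⟩ : ∃ n : ℝ, n = Fintype.card (X false) := ⟨_, rfl⟩
  rw [← hn] at hNn ⊢
  have hn0 : 0 < n := by linarith
  obtain ⟨C, hC⟩ : ∃ C : ℝ, C = D.C := ⟨_, rfl⟩
  have hC1 : 1 ≤ C := by
    rw [hC]
    exact C_ge D
  rw [← hC]
  obtain ⟨c, hc⟩ : ∃ c : ℝ, c = D.lam ^ (2 * j) := ⟨_, rfl⟩
  have hc0 : 0 < c := by
    rw [hc]
    exact pow_pos D.hlam0 _
  rw [← hc]
  have hlog : c * ipw D.w (D.g t) (D.g t) ≤ ipw D.w (D.T^[j] (D.g t)) (D.T^[j] (D.g t)) := by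
    rw [hc]
    exact logconvT (G := G false) (d := D.d) (W := D.W) (D.reg false) D.hd D.hlam0.le (g_K D t) j
  have hgn := g_norm D t
  obtain ⟨Q, hQ⟩ : ∃ Q : ℝ, Q = ipw D.w (D.T^[j] (D.g t)) (D.T^[j] (D.g t)) := ⟨_, rfl⟩
  rw [← hQ] at hlog
  have hQ1 : c * (2 / 5 * D.N) ≤ Q := (mul_le_mul_of_nonneg_left hgn hc0.le).trans hlog
  have hQ0 : 0 < Q := by
    have : 0 < c * (2 / 5 * (D.N : ℝ)) := by positivity
    linarith
  have hex : ∃ v, Q / n ≤ D.w v * (D.T^[j] (D.g t)) v ^ 2 := by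
    by_contra hcon
    push Not at hcon
    have hne : (univ : Finset (X false)).Nonempty := by
      rw [Finset.univ_nonempty_iff, ← Fintype.card_pos_iff]
      have : (0 : ℝ) < Fintype.card (X false) := by rw [← hn]; exact hn0
      exact_mod_cast this
    have h1 : ∑ x : X false, D.w x * (D.T^[j] (D.g t)) x ^ 2 < ∑ x : X false, Q / n :=
      Finset.sum_lt_sum_of_nonempty hne fun x _ => hcon x
    rw [Finset.sum_const, Finset.card_univ, nsmul_eq_mul, ← hn, mul_div_cancel₀ _ hn0.ne'] at h1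
    have h2 : Q = ∑ x : X false, D.w x * (D.T^[j] (D.g t)) x ^ 2 := by
      rw [hQ]
      unfold ipw
      exact Finset.sum_congr rfl fun x _ => by rw [sq]
    linarith
  obtain ⟨v, hv⟩ := hex
  have hv0 : 0 < Q / n := by positivity
  have hw0 : 0 < D.w v := by
    rcases (w_nonneg D v).lt_or_eq with h | h
    · exact h
    · rw [← h, zero_mul] at hv
      linarith
  refine ⟨v, ?_⟩
  intro u hu hvu
  obtain ⟨q, hq⟩ := hvu
  obtain ⟨ψ, hψ⟩ : ∃ ψ : X false → ℝ, ψ = fun x => D.w x * D.T^[j] (pt v) x := ⟨_, rfl⟩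
  have hmeas : Meas D.S false u ψ := by
    have h1 := psi_meas D u q j
    rw [hq] at h1
    rw [hψ]
    intro y z hyz
    have h2 : D.w y = D.w z := meas_om D.S (W_meas D u) D.d y z hyz
    show D.w y * D.T^[j] (pt v) y = D.w z * D.T^[j] (pt v) z
    rw [h1 y z hyz, h2]
  have hip : ip ψ (D.g t) = D.w v * (D.T^[j] (D.g t)) v := by
    have h1 : ipw D.w (pt v) (D.T^[j] (D.g t)) = ipw D.w (D.T^[j] (pt v)) (D.g t) :=
      To_iter_symm (G := G false) (d := D.d) (W := D.W) (D.reg false) D.hd (pt v) (D.g t) j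
    have h2 : ip ψ (D.g t) = ipw D.w (D.T^[j] (pt v)) (D.g t) := by
      rw [hψ]
      unfold ip ipw
      exact Finset.sum_congr rfl fun x _ => by ring
    rw [h2, ← h1]
    unfold ipw pt
    rw [Finset.sum_eq_single v]
    · simp
    · intro x _ hx
      simp [hx]
    · intro h
      exact absurd (mem_univ v) h
  have hb : ip ψ ψ ≤ D.w v * (C / D.N) := by
    have h1 := psi_norm D hr hw0 hj
    rw [hC]
    refine le_trans ?_ h1
    rw [hψ]
    unfold ip ipw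
    refine Finset.sum_le_sum fun x _ => ?_
    have h2 : 0 ≤ D.w x * (D.T^[j] (pt v) x * D.T^[j] (pt v) x) := mul_nonneg (w_nonneg D x) (mul_self_nonneg _)
    have h3 := mul_le_mul_of_nonneg_right (w_le D x) h2
    linarith
  have hincr := avg_incr (D.S.c false t) (D.S.c false u)
    (fun x y hxy => D.S.a3 false t u x y hu hxy) D.h ψ hmeas
  have hincr' : ip (D.f t) (D.f t) * ip ψ ψ + ip ψ (D.g t) ^ 2 ≤ ip (D.f u) (D.f u) * ip ψ ψ :=
    hincr
  rw [hip] at hincr'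
  have hcs := ip_cs ψ (D.g t)
  rw [hip] at hcs
  have hsq : D.w v * (Q / n) ≤ (D.w v * (D.T^[j] (D.g t)) v) ^ 2 := by
    have h1 := mul_le_mul_of_nonneg_left hv hw0.le
    calc D.w v * (Q / n) ≤ D.w v * (D.w v * (D.T^[j] (D.g t)) v ^ 2) := h1
      _ = _ := by ring
  have hsq0 : 0 < D.w v * (Q / n) := mul_pos hw0 hv0
  have hb0 : 0 < ip ψ ψ := by
    rcases (ip_self_nonneg ψ).lt_or_eq with h | h
    · exact h
    · rw [← h, zero_mul] at hcs
      linarith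
  obtain ⟨b, hbb⟩ : ∃ b : ℝ, b = ip ψ ψ := ⟨_, rfl⟩
  rw [← hbb] at hb hincr' hb0
  have h40 : b * D.N ≤ D.w v * C := by
    rw [mul_div_assoc', le_div_iff₀ (by linarith)] at hb
    exact hb
  have key : 2 / 5 * c * (D.N : ℝ) ^ 2 / (C * n) * b ≤ (D.w v * (D.T^[j] (D.g t)) v) ^ 2 := by
    refine le_trans ?_ hsq
    rw [mul_div_assoc', div_mul_eq_mul_div, div_le_div_iff₀ (by positivity) hn0]
    have h1 : c * (2 / 5 * (D.N : ℝ)) * (b * D.N) ≤ c * (2 / 5 * D.N) * (D.w v * C) :=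
      mul_le_mul_of_nonneg_left h40 (by positivity)
    have h2 : 2 / 5 * c * (D.N : ℝ) ^ 2 * b ≤ D.w v * C * Q := by
      have h3 : 2 / 5 * c * (D.N : ℝ) ^ 2 * b = c * (2 / 5 * D.N) * (b * D.N) := by ring
      rw [h3]
      have h4 : c * (2 / 5 * (D.N : ℝ)) * (D.w v * C) ≤ Q * (D.w v * C) :=
        mul_le_mul_of_nonneg_right hQ1 (mul_nonneg hw0.le (by linarith))
      linarith
    calc 2 / 5 * c * (D.N : ℝ) ^ 2 * b * n ≤ D.w v * C * Q * n := mul_le_mul_of_nonneg_right h2 hn0.le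
      _ = D.w v * Q * (C * n) := by ring
  have h5 : (ip (D.f t) (D.f t) + 2 / 5 * c * (D.N : ℝ) ^ 2 / (C * n)) * b ≤ ip (D.f u) (D.f u) * b := by
    rw [add_mul]
    linarith
  exact le_of_mul_le_mul_right h5 hb0

/-- The tuple after `m` steps. -/
theorem iter (hr : 1 ≤ r) {j : ℕ} (hj : (D.kp ^ 2) ^ j ≤ 1 / Fintype.card (X false))
    (v₀ : X false) (m : ℕ) (hm : m + 1 ≤ r) :
    ∃ t : Fin r → X false, (∀ p : Fin r, m ≤ p.val → t p = v₀) ∧
      (m : ℝ) * (2 / 5 * D.lam ^ (2 * j) * (D.N : ℝ) ^ 2 / (D.C * Fintype.card (X false))) ≤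
        ip (D.f t) (D.f t) := by
  induction m with
  | zero =>
    refine ⟨fun _ => v₀, fun _ _ => rfl, ?_⟩
    rw [Nat.cast_zero, zero_mul]
    exact Finset.sum_nonneg fun x _ => mul_self_nonneg _
  | succ m ih =>
    obtain ⟨t, ht, hb⟩ := ih (by omega)
    obtain ⟨v, hv⟩ := step D hr hj t
    have hne : (⟨m + 1, by omega⟩ : Fin r) ≠ ⟨m, by omega⟩ := by
      intro h
      have := congrArg Fin.val h
      simp at this
    refine ⟨Function.update t ⟨m, by omega⟩ v, ?_, ?_⟩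
    · intro p hp
      have hpm : p ≠ ⟨m, by omega⟩ := by
        intro h
        rw [h] at hp
        simp at hp
      rw [Function.update_of_ne hpm]
      exact ht p (by omega)
    · have h1 := hv (Function.update t ⟨m, by omega⟩ v) ?_ ?_
      · push_cast
        rw [add_mul, one_mul]
        linarith
      · intro p
        by_cases hp : p = ⟨m, by omega⟩
        · refine ⟨⟨m + 1, by omega⟩, ?_⟩
          rw [Function.update_of_ne hne, ht p (by rw [hp]), ht _ (by simp)]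
        · exact ⟨p, by rw [Function.update_of_ne hp]⟩
      · exact ⟨⟨m, by omega⟩, Function.update_self _ _ _⟩

theorem sys_bound (hr : 1 ≤ r) {j : ℕ} (hj : (D.kp ^ 2) ^ j ≤ 1 / Fintype.card (X false)) :
    ((r : ℝ) - 1) * (2 / 5 * D.lam ^ (2 * j) * (D.N : ℝ) ^ 2 / (D.C * Fintype.card (X false))) ≤
      D.N := by
  obtain ⟨v₀⟩ : Nonempty (X false) := nonempty' D
  obtain ⟨t, -, ht⟩ := iter D hr hj v₀ (r - 1) (by omega)
  have h1 : ((r - 1 : ℕ) : ℝ) = (r : ℝ) - 1 := by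
    rw [Nat.cast_sub hr, Nat.cast_one]
  rw [h1] at ht
  exact ht.trans ((avg_norm_le (D.S.c false t) D.h).trans (h_norm D).le)

end

section

/-- The number of steps of the walk. -/
theorem num {kp lam : ℝ} (hk0 : 0 < kp) (hk1 : kp < 1) (hl0 : 0 < lam) (hl1 : lam < 1) {n : ℕ} (hn : 1 ≤ n) :
    ∃ j : ℕ, (kp ^ 2) ^ j ≤ 1 / n ∧
      lam ^ 2 * (n : ℝ) ^ (-(2 * Real.log lam / Real.log (kp ^ 2))) ≤ lam ^ (2 * j) := by
  have hn0 : (0 : ℝ) < n := by exact_mod_cast hn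
  have hn1 : (1 : ℝ) ≤ n := by exact_mod_cast hn
  have hlog : 0 ≤ Real.log n := Real.log_nonneg hn1
  have hk2 : 0 < kp ^ 2 := by positivity
  have hL : 0 < -Real.log (kp ^ 2) := by
    have := Real.log_neg hk2 (by nlinarith)
    linarith
  have hl := Real.log_neg hl0 hl1
  have hj1 : Real.log n / -Real.log (kp ^ 2) ≤ (⌈Real.log n / -Real.log (kp ^ 2)⌉₊ : ℝ) := Nat.le_ceil _
  have hj2 : (⌈Real.log n / -Real.log (kp ^ 2)⌉₊ : ℝ) < Real.log n / -Real.log (kp ^ 2) + 1 :=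
    Nat.ceil_lt_add_one (div_nonneg hlog hL.le)
  generalize ⌈Real.log n / -Real.log (kp ^ 2)⌉₊ = j at hj1 hj2
  refine ⟨j, ?_, ?_⟩
  · rw [div_le_iff₀ hL] at hj1
    have h2 : (kp ^ 2) ^ j = Real.exp (j * Real.log (kp ^ 2)) := by
      rw [mul_comm (j : ℝ), ← Real.rpow_def_of_pos hk2, Real.rpow_natCast]
    rw [h2]
    calc Real.exp (j * Real.log (kp ^ 2)) ≤ Real.exp (-Real.log n) := Real.exp_le_exp.2 (by linarith)
      _ = 1 / n := by rw [Real.exp_neg, Real.exp_log hn0, one_div]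
  · have h2 : lam ^ (2 * j) = Real.exp ((2 * j : ℕ) * Real.log lam) := by
      rw [mul_comm ((2 * j : ℕ) : ℝ), ← Real.rpow_def_of_pos hl0, Real.rpow_natCast]
    have h3 : (n : ℝ) ^ (-(2 * Real.log lam / Real.log (kp ^ 2))) =
        Real.exp (-(2 * Real.log lam / Real.log (kp ^ 2)) * Real.log n) := by
      rw [Real.rpow_def_of_pos hn0, mul_comm]
    have h4 : lam ^ 2 = Real.exp (2 * Real.log lam) := by
      have h5 : (2 : ℝ) * Real.log lam = Real.log (lam ^ 2) := by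
        rw [Real.log_pow]
        norm_num
      rw [h5, Real.exp_log (by positivity)]
    rw [h2, h3, h4, ← Real.exp_add]
    refine Real.exp_le_exp.2 ?_
    push_cast
    have h7 : -(2 * Real.log lam / Real.log (kp ^ 2)) * Real.log n =
        2 * Real.log lam * (Real.log n / -Real.log (kp ^ 2)) := by
      have : Real.log (kp ^ 2) ≠ 0 := by
        intro h
        rw [h] at hL
        norm_num at hL
      field_simp
    rw [h7]
    have h8 : 2 * Real.log lam * (Real.log n / -Real.log (kp ^ 2) + 1) ≤ 2 * Real.log lam * j :=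
      mul_le_mul_of_nonpos_left hj2.le (by linarith)
    linarith

variable {η : ℝ}

theorem lam_lt (h0 : 0 < η) (h1 : η < 6 / 25) : 23 / 35 < (4 - 9 * η) / (4 - 5 * η) ∧ (4 - 9 * η) / (4 - 5 * η) < 1 := by
  constructor
  · rw [lt_div_iff₀ (by linarith)]
    linarith
  · rw [div_lt_one (by linarith)]
    linarith

theorem kap0_lt (h0 : 0 < η) (h1 : η < 6 / 25) : 0 < η * (2 - η) ∧ η * (2 - η) < 264 / 625 := by
  constructor
  · exact mul_pos h0 (by linarith)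
  · nlinarith

theorem expo_pos (h0 : 0 < η) (h1 : η < 6 / 25) : 0 < expo η := by
  unfold expo
  have h2 := lam_lt h0 h1
  have h3 := kap0_lt h0 h1
  refine div_pos_of_neg_of_neg ?_ (Real.log_neg h3.1 (by linarith [h3.2]))
  have := Real.log_neg (by linarith [h2.1]) h2.2
  linarith

theorem expo_lt_one (h0 : 0 < η) (h1 : η < 6 / 25) : expo η < 1 := by
  unfold expo
  have h2 := lam_lt h0 h1
  have h3 := kap0_lt h0 h1
  rw [div_lt_one_of_neg (Real.log_neg h3.1 (by linarith [h3.2]))]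
  have h5 : 2 * Real.log ((4 - 9 * η) / (4 - 5 * η)) = Real.log (((4 - 9 * η) / (4 - 5 * η)) ^ 2) := by
    rw [Real.log_pow]
    norm_num
  rw [h5]
  refine Real.log_lt_log h3.1 ?_
  nlinarith [h2.1, h3.2]

/-- The parameters for an exponent `β` above `expo η`. -/
theorem params (h0 : 0 < η) (h1 : η < 6 / 25) {β : ℝ} (hβ : expo η < β) :
    ∃ σ ρ lam kp : ℝ, 0 < σ ∧ σ ≤ 1 / 64 ∧ 0 < ρ ∧ ρ ≤ 1 ∧ 0 < lam ∧ lam < 1 ∧
      (1 - lam) * (5 / 4 * ((1 + σ) * η)) ≤ 1 - η - lam ∧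
      kap ρ η < kp ∧ kp < 1 ∧ 2 * Real.log lam / Real.log (kp ^ 2) ≤ β := by
  have hl := lam_lt h0 h1
  have hk := kap0_lt h0 h1
  obtain ⟨k₀, hk₀⟩ : ∃ k₀ : ℝ, k₀ = η * (2 - η) := ⟨_, rfl⟩
  obtain ⟨l₀, hl₀⟩ : ∃ l₀ : ℝ, l₀ = (4 - 9 * η) / (4 - 5 * η) := ⟨_, rfl⟩
  have hexpo : expo η = 2 * Real.log l₀ / Real.log k₀ := by
    rw [hl₀, hk₀]
    rfl
  rw [← hk₀] at hk
  rw [← hl₀] at hl
  have hlog : Real.log k₀ ≠ 0 := (Real.log_neg hk.1 (by linarith [hk.2])).ne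
  have hcont : ContinuousAt (fun ε : ℝ => 2 * Real.log (l₀ - ε) / Real.log (k₀ + ε)) 0 := by
    have e1 : ContinuousAt (fun ε : ℝ => 2 * Real.log (l₀ - ε)) 0 := by
      refine ContinuousAt.const_mul ?_ _
      refine ContinuousAt.log (by fun_prop) ?_
      rw [sub_zero]
      linarith [hl.1]
    have e2 : ContinuousAt (fun ε : ℝ => Real.log (k₀ + ε)) 0 := by
      refine ContinuousAt.log (by fun_prop) ?_
      rw [add_zero]
      exact hk.1.ne'
    refine ContinuousAt.div e1 e2 ?_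
    rw [add_zero]
    exact hlog
  have hval : (fun ε : ℝ => 2 * Real.log (l₀ - ε) / Real.log (k₀ + ε)) 0 < β := by
    show 2 * Real.log (l₀ - 0) / Real.log (k₀ + 0) < β
    rw [sub_zero, add_zero, ← hexpo]
    exact hβ
  have hev := hcont.eventually_lt continuousAt_const hval
  rw [Metric.eventually_nhds_iff] at hev
  obtain ⟨μ, hμ, hball⟩ := hev
  obtain ⟨ε, hε0, hε1, hε2, hε3⟩ : ∃ ε : ℝ, 0 < ε ∧ ε < μ ∧ ε < l₀ ∧ ε < 1 - k₀ := by
    have h3 : 0 < l₀ := by linarith [hl.1]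
    have h4 : 0 < 1 - k₀ := by linarith [hk.2]
    have hmin : 0 < min μ (min l₀ (1 - k₀)) := lt_min hμ (lt_min h3 h4)
    refine ⟨min μ (min l₀ (1 - k₀)) / 2, by linarith, ?_, ?_, ?_⟩
    · have h2 : min μ (min l₀ (1 - k₀)) ≤ μ := min_le_left _ _
      linarith
    · have h2 : min μ (min l₀ (1 - k₀)) ≤ l₀ := (min_le_right _ _).trans (min_le_left _ _)
      linarith
    · have h2 : min μ (min l₀ (1 - k₀)) ≤ 1 - k₀ := (min_le_right _ _).trans (min_le_right _ _)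
      linarith
  have hfin := hball (y := ε) (by
    rw [Real.dist_eq, sub_zero, abs_of_pos hε0]
    exact hε1)
  have hkpos : 0 < k₀ + ε := by linarith [hk.1]
  have hkp2 : Real.sqrt (k₀ + ε) ^ 2 = k₀ + ε := Real.sq_sqrt hkpos.le
  -- the slack
  have hgap : (1 - (l₀ - ε)) * (5 / 4 * η) < 1 - η - (l₀ - ε) := by
    have h2 : l₀ * (4 - 5 * η) = 4 - 9 * η := by
      rw [hl₀, div_mul_cancel₀]
      linarith
    nlinarith
  have hpos : 0 < (1 - (l₀ - ε)) * (5 / 4 * η) := mul_pos (by linarith [hl.2]) (by linarith)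
  refine ⟨min (1 / 64) ((1 - η - (l₀ - ε)) / ((1 - (l₀ - ε)) * (5 / 4 * η)) - 1), min 1 (ε / (2 * k₀)), l₀ - ε,
    Real.sqrt (k₀ + ε), ?_, min_le_left _ _, ?_, min_le_left _ _, by linarith, by linarith [hl.2], ?_, ?_, ?_, ?_⟩
  · refine lt_min (by norm_num) ?_
    rw [sub_pos, one_lt_div hpos]
    exact hgap
  · refine lt_min (by norm_num) ?_
    have := hk.1
    positivity
  · have h2 : min (1 / 64) ((1 - η - (l₀ - ε)) / ((1 - (l₀ - ε)) * (5 / 4 * η)) - 1) ≤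
        (1 - η - (l₀ - ε)) / ((1 - (l₀ - ε)) * (5 / 4 * η)) - 1 := min_le_right _ _
    have h3 : (1 + min (1 / 64) ((1 - η - (l₀ - ε)) / ((1 - (l₀ - ε)) * (5 / 4 * η)) - 1)) *
        ((1 - (l₀ - ε)) * (5 / 4 * η)) ≤
        (1 - η - (l₀ - ε)) / ((1 - (l₀ - ε)) * (5 / 4 * η)) * ((1 - (l₀ - ε)) * (5 / 4 * η)) :=
      mul_le_mul_of_nonneg_right (by linarith) hpos.le
    rw [div_mul_cancel₀ _ hpos.ne'] at h3
    linarith
  · -- the norm bound
    obtain ⟨ρ, hρ⟩ : ∃ ρ : ℝ, ρ = min 1 (ε / (2 * k₀)) := ⟨_, rfl⟩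
    rw [← hρ]
    have hρ0 : 0 < ρ := by
      rw [hρ]
      refine lt_min (by norm_num) ?_
      have := hk.1
      positivity
    have hρ1 : ρ ≤ 1 := by
      rw [hρ]
      exact min_le_left _ _
    have hρ2 : ρ * k₀ ≤ ε / 2 := by
      have h2 : ρ ≤ ε / (2 * k₀) := by
        rw [hρ]
        exact min_le_right _ _
      rw [le_div_iff₀ (by linarith [hk.1])] at h2
      linarith
    have hθ : 0 ≤ (1 + ρ) * η / 2 * (1 - (1 + ρ) * η / 2) := by
      have h3 : (1 + ρ) * η ≤ 2 * (6 / 25) := mul_le_mul (by linarith) h1.le h0.le (by norm_num)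
      refine mul_nonneg (by positivity) (by linarith)
    have h4 : kap ρ η ^ 2 < Real.sqrt (k₀ + ε) ^ 2 := by
      rw [hkp2]
      unfold kap
      rw [mul_pow, Real.sq_sqrt hθ]
      have h5 : (2 : ℝ) ^ 2 * ((1 + ρ) * η / 2 * (1 - (1 + ρ) * η / 2)) ≤ (1 + ρ) * k₀ := by
        rw [hk₀]
        have h6 : 0 ≤ (1 + ρ) * η := by positivity
        have h7 : 0 ≤ (1 + ρ) * η * (ρ * η) := by positivity
        nlinarith
      have h8 : (1 + ρ) * k₀ < k₀ + ε := by linarith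
      linarith
    exact lt_of_pow_lt_pow_left₀ 2 (Real.sqrt_nonneg _) h4
  · rw [Real.sqrt_lt' (by norm_num)]
    linarith
  · rw [hkp2]
    exact hfin.le

end

end Pool.Agent.Lib.MP_8d8c46_lc.Nw
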