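import Pool.Agent.Lib.MP_8d8c46_lc.Nw.Inc
import Pool.Agent.Lib.MP_8d8c46_lc.CW.P2

/-!
# Symmetric threshold: the theorem for the pebble game and for symmetric oracle algorithms
-/

set_option autoImplicit false

open scoped Classical
open Finset

namespace Pool.Agent.Lib.MP_8d8c46_lc.Nw

open Pool.Agent.Lib.MP_8d8c46_lc.CW

/-- The case of large `N = δ n`. -/
theorem large_case {η δ : ℚ} (hη0 : 0 < η) (hη : η < 6 / 25) (hδ0 : 0 < δ) (hδ : δ ≤ 1 / 2) {V W : Type}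
    [Fintype V] [Fintype W] {G : SimpleGraph V} {H : SimpleGraph W} (hY : SSEYes η δ G) (hN : SSENo η δ H)
    {β σ ρ lam kp : ℝ} (hσ0 : 0 < σ) (hσ1 : σ ≤ 1 / 64) (hρ0 : 0 < ρ) (hρ1 : ρ ≤ 1) (hlam0 : 0 < lam) (hlam1 : lam < 1)
    (hlam : (1 - lam) * (5 / 4 * ((1 + σ) * (η : ℝ))) ≤ 1 - (η : ℝ) - lam) (hkp : kap ρ (η : ℝ) < kp) (hkp1 : kp < 1)
    (hβ : 2 * Real.log lam / Real.log (kp ^ 2) ≤ β)
    (hbig : 4 ≤ σ ^ 2 * ((η : ℝ) ^ 2 * (δ * Fintype.card V))) {r : ℕ} (hr : 1 ≤ r)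
    (hr' : 3 * (8 / ρ / (kp * (kp - kap ρ (η : ℝ))) + 1) / ((δ : ℝ) * lam ^ 2) * (Fintype.card V : ℝ) ^ β < (r : ℝ) - 1) :
    ¬ PebbleEquiv (r + 2) G H := by
  intro hpe
  obtain ⟨d, ⟨hd, hreg, N, hN0, hNe⟩, A, hA, hAe⟩ := hY
  obtain ⟨d', ⟨hd', hreg', N', hN0', hNe'⟩, hno⟩ := hN
  have hn0 : 0 < Fintype.card V := by
    rcases Nat.eq_zero_or_pos (Fintype.card V) with h | h
    · exfalso
      rw [h, Nat.cast_zero, mul_zero] at hNe
      have h2 : N = 0 := by exact_mod_cast hNe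
      omega
    · exact h
  have hVne : Nonempty V := Fintype.card_pos_iff.1 hn0
  obtain ⟨S⟩ := exists_sys hpe
  have hXne : Nonempty (XX V W false) := hVne
  have hdd : d = d' := deg_eq S (show Regular (GG G H false) d from hreg)
    (show Regular (GG G H true) d' from hreg')
  subst hdd
  have hcc : Fintype.card (XX V W false) = Fintype.card (XX V W true) := card_eq S
  have hcc' : Fintype.card V = Fintype.card W := hcc
  have hAN : A.card = N := by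
    have h1 : (A.card : ℚ) = N := by rw [hA, hNe]
    exact_mod_cast h1
  have hNle : N ≤ Fintype.card V := by
    have h1 : (N : ℚ) ≤ Fintype.card V := by
      rw [hNe]
      have h2 : (0 : ℚ) ≤ Fintype.card V := Nat.cast_nonneg _
      nlinarith
    exact_mod_cast h1
  have hη0' : (0 : ℝ) < (η : ℝ) := by exact_mod_cast hη0
  have hη1' : (η : ℝ) < 6 / 25 := by
    have h1 : ((η : ℚ) : ℝ) < (((6 / 25 : ℚ)) : ℝ) := by exact_mod_cast hη
    push_cast at h1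
    linarith
  have hNR : (N : ℝ) = (δ : ℝ) * (Fintype.card V : ℝ) := by exact_mod_cast hNe
  have hNt : ∀ T : Finset W, T.card = N → (inside H T : ℝ) ≤ (η : ℝ) * ((d : ℝ) * N) := by
    intro T hT
    have h1 : (T.card : ℚ) = δ * Fintype.card W := by rw [hT, hNe, hcc']
    have h2 := (le_expansion_iff hreg' hd (by rw [hT]; exact hN0) η).1 (hno T h1)
    rw [hT] at h2
    exact_mod_cast h2
  have hyes : (1 - (η : ℝ)) * ((d : ℝ) * N) ≤ (inside G A : ℝ) := by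
    have h2 := (expansion_le_iff hreg hd (by rw [hAN]; exact hN0) η).1 hAe
    rw [hAN] at h2
    exact_mod_cast h2
  have hbig' : 4 ≤ σ ^ 2 * ((η : ℝ) ^ 2 * N) := by
    rw [hNR]
    exact hbig
  obtain ⟨D, hDN, hDη, hDl, hDk, hDρ⟩ : ∃ D : Data r (XX V W) (GG G H), D.N = N ∧ D.η = (η : ℝ) ∧ D.lam = lam ∧
      D.kp = kp ∧ D.ρ = ρ := by
    refine ⟨⟨S, d, N, (η : ℝ), A, hd, ?_, hN0, hcc, hNle, hη0', hη1', hNt, hAN, hyes, σ, ρ, lam, kp, hσ0, hσ1, hρ0,
      hρ1, hlam0, hlam1, hlam, hkp, hbig'⟩, rfl, rfl, rfl, rfl, rfl⟩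
    intro i
    cases i
    · exact hreg
    · exact hreg'
  have hkp0 : 0 < kp := lt_of_le_of_lt (kap_nonneg _ _) hkp
  obtain ⟨j, hj1, hj2⟩ := num hkp0 hkp1 hlam0 hlam1 (n := Fintype.card V) hn0
  have hb := sys_bound D hr (j := j) (by rw [hDk]; exact hj1)
  have hDC : D.C = 8 / ρ / (kp * (kp - kap ρ (η : ℝ))) + 1 := by
    unfold Data.C
    rw [hDk, hDη, hDρ]
  have hC := C_ge D
  rw [hDC] at hC
  rw [hDN, hDC, hDl] at hb
  have hcard : Fintype.card (XX V W false) = Fintype.card V := rfl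
  rw [hcard] at hb
  have hn : (0 : ℝ) < (Fintype.card V : ℝ) := by exact_mod_cast hn0
  have hn1 : (1 : ℝ) ≤ (Fintype.card V : ℝ) := by exact_mod_cast hn0
  have hδ' : (0 : ℝ) < (δ : ℝ) := by exact_mod_cast hδ0
  rw [hNR] at hb
  generalize (Fintype.card V : ℝ) = n at *
  have hx : 0 < n ^ β := Real.rpow_pos_of_pos hn _
  have hneg : (n ^ β)⁻¹ ≤ n ^ (-(2 * Real.log lam / Real.log (kp ^ 2))) := by
    rw [← Real.rpow_neg hn.le]
    exact Real.rpow_le_rpow_of_exponent_le hn1 (by linarith)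
  have hj3 : lam ^ 2 * (n ^ β)⁻¹ ≤ lam ^ (2 * j) :=
    (mul_le_mul_of_nonneg_left hneg (by positivity)).trans hj2
  clear hj2 hneg
  generalize n ^ β = x at *
  generalize lam ^ (2 * j) = E at *
  generalize 8 / ρ / (kp * (kp - kap ρ (η : ℝ))) + 1 = C at *
  have hC0 : 0 < C := by linarith
  have hl2 : 0 < lam ^ 2 := by positivity
  generalize lam ^ 2 = L at *
  have hR : 0 < (r : ℝ) - 1 := lt_trans (by positivity) hr'
  have h1 : ((r : ℝ) - 1) * (2 / 5 * (L * x⁻¹) * ((δ : ℝ) * n) ^ 2 / (C * n)) ≤ (δ : ℝ) * n := by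
    refine le_trans ?_ hb
    refine mul_le_mul_of_nonneg_left ?_ hR.le
    refine div_le_div_of_nonneg_right ?_ (by positivity)
    refine mul_le_mul_of_nonneg_right ?_ (by positivity)
    linarith
  have h2 : (3 * C / ((δ : ℝ) * L) * x) * (2 / 5 * (L * x⁻¹) * ((δ : ℝ) * n) ^ 2 / (C * n)) <
      ((r : ℝ) - 1) * (2 / 5 * (L * x⁻¹) * ((δ : ℝ) * n) ^ 2 / (C * n)) :=
    mul_lt_mul_of_pos_right hr' (by positivity)
  have h3 : (3 * C / ((δ : ℝ) * L) * x) * (2 / 5 * (L * x⁻¹) * ((δ : ℝ) * n) ^ 2 / (C * n)) =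
      6 / 5 * ((δ : ℝ) * n) := by
    field_simp
    norm_num
  have h4 : 0 < (δ : ℝ) * n := by positivity
  linarith

theorem lt_cast {η : ℚ} (h : η < 6 / 25) : (η : ℝ) < 6 / 25 := by
  have h1 : ((η : ℚ) : ℝ) < (((6 / 25 : ℚ)) : ℝ) := by exact_mod_cast h
  push_cast at h1
  linarith

theorem part_one {η δ : ℚ} (hη0 : 0 < η) (hη : η < 6 / 25) (hδ0 : 0 < δ) (hδ : δ ≤ 1 / 2) {β : ℝ}
    (hβ : expo (η : ℝ) < β) :
    ∃ K : ℝ, 1 ≤ K ∧ ∀ (V W : Type) [Fintype V] [Fintype W] (G : SimpleGraph V) (H : SimpleGraph W),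
      SSEYes η δ G → SSENo η δ H → ∀ k : ℕ, K * (Fintype.card V : ℝ) ^ β ≤ k →
        ¬ PebbleEquiv k G H := by
  have hη0' : (0 : ℝ) < (η : ℝ) := by exact_mod_cast hη0
  have hη1' := lt_cast hη
  have hδ0' : (0 : ℝ) < (δ : ℝ) := by exact_mod_cast hδ0
  have hβ0 : 0 < β := (expo_pos hη0' hη1').trans hβ
  obtain ⟨σ, ρ, lam, kp, hσ0, hσ1, hρ0, hρ1, hlam0, hlam1, hlam, hkp, hkp1, hβ'⟩ := params hη0' hη1' hβ
  have hkp0 : 0 < kp := lt_of_le_of_lt (kap_nonneg _ _) hkp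
  have hkd : 0 < kp - kap ρ (η : ℝ) := by linarith
  obtain ⟨a, ha⟩ : ∃ a : ℝ, a = 3 * (8 / ρ / (kp * (kp - kap ρ (η : ℝ))) + 1) / ((δ : ℝ) * lam ^ 2) := ⟨_, rfl⟩
  obtain ⟨b, hb⟩ : ∃ b : ℝ, b = 4 / (σ ^ 2 * ((η : ℝ) ^ 2 * (δ : ℝ))) := ⟨_, rfl⟩
  have ha0 : 0 < a := by
    rw [ha]
    positivity
  have hKa : a + 10 ≤ max a b + 10 := by
    have := le_max_left a b
    linarith
  have hKb : b ≤ max a b + 10 := by
    have := le_max_right a b
    linarith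
  refine ⟨max a b + 10, by linarith, ?_⟩
  generalize max a b + 10 = K at hKa hKb
  intro V W _ _ G H hY hN k hk hp
  have hn : 0 < Fintype.card V := by
    obtain ⟨d, ⟨_, _, m, hm0, hm⟩, _⟩ := hY
    rcases Nat.eq_zero_or_pos (Fintype.card V) with h0 | h0
    · rw [h0] at hm
      simp only [Nat.cast_zero, mul_zero] at hm
      have : m = 0 := by exact_mod_cast hm
      omega
    · exact h0
  have hn1 : (1 : ℝ) ≤ (Fintype.card V : ℝ) := by exact_mod_cast hn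
  have hX : (1 : ℝ) ≤ (Fintype.card V : ℝ) ^ β := Real.one_le_rpow hn1 hβ0.le
  set X : ℝ := (Fintype.card V : ℝ) ^ β with hXdef
  have hKk : K ≤ (k : ℝ) := by
    have hK0 : 0 ≤ K := by linarith
    nlinarith
  by_cases hs : σ ^ 2 * ((η : ℝ) ^ 2 * ((δ : ℝ) * Fintype.card V)) < 4
  · have hnk : Fintype.card V ≤ k := by
      have h1 : (0 : ℝ) < σ ^ 2 * ((η : ℝ) ^ 2 * (δ : ℝ)) := by positivity
      have h2 : (Fintype.card V : ℝ) ≤ b := by
        rw [hb, le_div_iff₀ h1]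
        linarith
      have h3 : (Fintype.card V : ℝ) ≤ (k : ℝ) := le_trans h2 (le_trans hKb hKk)
      exact_mod_cast h3
    have hp' := pebble_mono hnk hp
    have hiso := PebbleEquiv.iso (Fintype.equivFin V).symm hn hp'
    exact not_iso (lt_trans hη (by norm_num)) hY hN hiso
  · have hbig : 4 ≤ σ ^ 2 * ((η : ℝ) ^ 2 * ((δ : ℝ) * Fintype.card V)) := not_lt.1 hs
    have hkX : a * X + 10 ≤ (k : ℝ) := by
      have h1 : (a + 10) * X ≤ K * X := mul_le_mul_of_nonneg_right hKa (by linarith)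
      nlinarith
    have h900 : 0 ≤ a * X := by
      have : (0 : ℝ) ≤ X := by linarith
      positivity
    have hk10 : 10 ≤ k := by
      have : (10 : ℝ) ≤ (k : ℝ) := by linarith
      exact_mod_cast this
    obtain ⟨r, rfl⟩ : ∃ r, k = r + 2 := ⟨k - 2, by omega⟩
    refine large_case hη0 hη hδ0 hδ hY hN hσ0 hσ1 hρ0 hρ1 hlam0 hlam1 hlam hkp hkp1 hβ' hbig (r := r) (by omega) ?_ hp
    rw [← ha]
    push_cast at hkX
    linarith

/-- The oracle which answers yes on the graphs that are equivalent to a Yes instance. PROOF. `K` from `part_one`; `O W G` iff there are a Yes instance `G'` on some `V'` and `k ≥ K (card V') ^ β` with `PebbleEquiv k G' G`. Invariance: `k' ≥ K (card W) ^ β` and `PebbleEquiv k' G H`: `card V' = card W` (`pebble_card`; `k > 0` as `card V' > 0`, `K ≥ 1`),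
`min k k'` works for `G', H` by `pebble_mono`, `pebble_trans`. The other direction with `pebble_symm`. -/
theorem exists_oracle {η δ : ℚ} (hη0 : 0 < η) (hη : η < 6 / 25) (hδ0 : 0 < δ) (hδ : δ ≤ 1 / 2) {β : ℝ}
    (hβ : expo (η : ℝ) < β) :
    ∃ O : Oracle, Solves η δ O ∧ ∃ K : ℝ, 1 ≤ K ∧ ∀ (V W : Type) [Fintype V] [Fintype W] (G : SimpleGraph V)
      (H : SimpleGraph W) (k : ℕ), 0 < k → K * (Fintype.card V : ℝ) ^ β ≤ k → PebbleEquiv k G H →
        (O V G ↔ O W H) := by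
  obtain ⟨K, hK1, hK⟩ := part_one hη0 hη hδ0 hδ hβ
  have hη0' : (0 : ℝ) < (η : ℝ) := by exact_mod_cast hη0
  have hex : 0 ≤ β := ((expo_pos hη0' (lt_cast hη)).trans hβ).le
  have hpos : ∀ (V' : Type) [Fintype V'] (G' : SimpleGraph V') (k : ℕ), SSEYes η δ G' →
      K * (Fintype.card V' : ℝ) ^ β ≤ k → 0 < k := by
    intro V' _ G' k hY hk
    obtain ⟨d, ⟨_, _, m, hm0, hm⟩, _⟩ := hY
    have hn : 0 < Fintype.card V' := by
      rcases Nat.eq_zero_or_pos (Fintype.card V') with h0 | h0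
      · rw [h0] at hm
        simp only [Nat.cast_zero, mul_zero] at hm
        have : m = 0 := by exact_mod_cast hm
        omega
      · exact h0
    have hn1 : (1 : ℝ) ≤ (Fintype.card V' : ℝ) := by exact_mod_cast hn
    have hX : (1 : ℝ) ≤ (Fintype.card V' : ℝ) ^ β := Real.one_le_rpow hn1 hex
    have : (0 : ℝ) < k := by nlinarith
    exact_mod_cast this
  refine ⟨fun W _ G => ∃ (V' : Type) (_ : Fintype V') (G' : SimpleGraph V') (k : ℕ), SSEYes η δ G' ∧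
    K * (Fintype.card V' : ℝ) ^ β ≤ k ∧ PebbleEquiv k G' G, ?_, K, hK1, ?_⟩
  · intro W _ G
    refine ⟨fun hY => ⟨W, inferInstance, G, ⌈K * (Fintype.card W : ℝ) ^ β⌉₊, hY, Nat.le_ceil _,
      pebble_refl⟩, ?_⟩
    rintro hN ⟨V', _, G', k, hY, hk, hp⟩
    exact hK V' W G' G hY hN k hk hp
  · have main : ∀ (V W : Type) [Fintype V] [Fintype W] (G : SimpleGraph V) (H : SimpleGraph W) (k : ℕ),
        K * (Fintype.card V : ℝ) ^ β ≤ k → PebbleEquiv k G H →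
        (∃ (V' : Type) (_ : Fintype V') (G' : SimpleGraph V') (k : ℕ), SSEYes η δ G' ∧
          K * (Fintype.card V' : ℝ) ^ β ≤ k ∧ PebbleEquiv k G' G) →
        (∃ (V' : Type) (_ : Fintype V') (G' : SimpleGraph V') (k : ℕ), SSEYes η δ G' ∧
          K * (Fintype.card V' : ℝ) ^ β ≤ k ∧ PebbleEquiv k G' H) := by
      rintro V W _ _ G H k hk hp ⟨V', _, G', k', hY, hk', hp'⟩
      have hk0 : 0 < k' := hpos V' G' k' hY hk'
      have hcard : Fintype.card V' = Fintype.card V := pebble_card hk0 hp'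
      refine ⟨V', inferInstance, G', min k k', hY, ?_, ?_⟩
      · rw [Nat.cast_min]
        refine le_min ?_ hk'
        rw [hcard]
        exact hk
      · exact pebble_trans (pebble_mono (min_le_right _ _) hp') (pebble_mono (min_le_left _ _) hp)
    intro V W _ _ G H k hk0 hk hp
    exact ⟨main V W G H k hk hp, main W V H G k (by rw [← pebble_card hk0 hp]; exact hk) (pebble_symm hp)⟩

/-- PROOF. `O, K` from `exists_oracle`. `c₀` from `lemma13`, `c = min (c₀ / 16) (c₀ / (4 K))`. `1 ≤ a ≤ c n`. `M = ⌊c₀ n⌋₊ ≥ 1`, `M > c₀ n - 1`; `φ, ψ` from `lemma13` for `M` pebbles. `k = M / a - 1`: `(k + 1) * a ≤ M`; `2 a + r ≤ c₀ n / 8 + c₀ n / 16 ≤ M`. `lemma12`: `PebbleEquiv k (F φ) (F ψ)` for every symmetric map `F`.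
`k > (c₀ n - 1) / a - 2 ≥ c₀ n / a - 3 ≥ c₀ n / (2 a)`. If `N = card (F.Vtx φ) < (c n / a) ^ (1 / β)` then `K N ^ β ≤ K c n / a ≤ c₀ n / (4 a) ≤ k`, so the oracle gives the same answer on `F φ` and `F ψ`. -/
theorem main_two {η δ : ℚ} (hη0 : 0 < η) (hη : η < 6 / 25) (hδ0 : 0 < δ) (hδ : δ ≤ 1 / 2) {β : ℝ}
    (hβ : expo (η : ℝ) < β) :
    ∃ O : Oracle, Solves η δ O ∧
      (∃ K : ℝ, ∀ (V W : Type) [Fintype V] [Fintype W] (G : SimpleGraph V) (H : SimpleGraph W) (k : ℕ),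
        0 < k → K * (Fintype.card V : ℝ) ^ β ≤ k → PebbleEquiv k G H → (O V G ↔ O W H)) ∧
      ∀ ε : ℝ, 0 < ε → ∃ c : ℝ, 0 < c ∧ ∀ n a r : ℕ, 1 ≤ a → (a : ℝ) ≤ c * n → (r : ℝ) ≤ c * n →
        ∃ φ ψ : Formula (Fin n), Satisfiable φ ∧ ValueLt (7 / 8 + ε) ψ ∧
          ∀ P : PMF (SymAlg (Fin 3 → Bool) (Fin n) a r),
            |(P.toOuterMeasure {T | T.Accepts O (toStruct φ)}).toReal -
                (P.toOuterMeasure {T | T.Accepts O (toStruct ψ)}).toReal| ≤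
              (P.toOuterMeasure {T | T.AsksLarge O (toStruct φ) ((c * n / a) ^ (1 / β))}).toReal := by
  obtain ⟨O, hO, K, hK1, hK⟩ := exists_oracle hη0 hη hδ0 hδ hβ
  refine ⟨O, hO, ⟨K, hK⟩, ?_⟩
  intro ε hε
  obtain ⟨c₀, hc₀, h13⟩ := lemma13 hε
  have hK0 : 0 < K := by linarith
  refine ⟨min (c₀ / 16) (c₀ / (4 * K)), lt_min (by positivity) (by positivity), ?_⟩
  intro n a r ha han hr
  set c := min (c₀ / 16) (c₀ / (4 * K)) with hc
  have hcpos : 0 < c := lt_min (by positivity) (by positivity)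
  have hc1 : c ≤ c₀ / 16 := min_le_left _ _
  have hc2 : c ≤ c₀ / (4 * K) := min_le_right _ _
  have haR : (1 : ℝ) ≤ (a : ℝ) := by exact_mod_cast ha
  have ha0 : (0 : ℝ) < a := by linarith
  have hn0 : (0 : ℝ) ≤ n := Nat.cast_nonneg n
  have hηR : (0 : ℝ) < β := (expo_pos (by exact_mod_cast hη0) (lt_cast hη)).trans hβ
  have hx0 : 0 ≤ c * n / a := by positivity
  have h16 : 16 * (a : ℝ) ≤ c₀ * n := by
    have : c * n ≤ c₀ / 16 * n := mul_le_mul_of_nonneg_right hc1 hn0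
    linarith
  set M := ⌊c₀ * n⌋₊ with hM
  have hM1 : (M : ℝ) ≤ c₀ * n := Nat.floor_le (by positivity)
  have hM2 : c₀ * n < M + 1 := Nat.lt_floor_add_one _
  have hMpos : 1 ≤ M := by
    have : (1 : ℝ) ≤ (M : ℝ) := by linarith
    exact_mod_cast this
  obtain ⟨φ, ψ, hφ, hψ, hcov⟩ := h13 n M hMpos hM1
  have haM : a ≤ M := by
    have : (a : ℝ) ≤ (M : ℝ) := by linarith
    exact_mod_cast this
  have hdiv : 1 ≤ M / a := (Nat.one_le_div_iff (by omega)).2 haM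
  have hk1 : (M / a - 1 + 1) * a ≤ M := by
    rw [Nat.sub_add_cancel hdiv]
    exact Nat.div_mul_le_self M a
  have hr2 : 2 * a + r ≤ M := by
    have h1 : c * n ≤ c₀ / 16 * n := mul_le_mul_of_nonneg_right hc1 hn0
    have : ((2 * a + r : ℕ) : ℝ) ≤ (M : ℝ) := by
      push_cast
      linarith
    exact_mod_cast this
  have hkR : (M : ℝ) / a < ((M / a - 1 : ℕ) : ℝ) + 2 := by
    have h1 : M < (M / a + 1) * a := by
      have := Nat.lt_div_mul_add (a := M) (b := a) (by omega)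
      linarith [this, Nat.add_mul (M / a) 1 a]
    have h2 : (M : ℝ) < ((M / a : ℕ) + 1 : ℝ) * a := by exact_mod_cast h1
    rw [div_lt_iff₀ ha0, Nat.cast_sub hdiv]
    push_cast
    linarith
  have h1 : c₀ * n / a - 1 ≤ (M : ℝ) / a := by
    have h3 : (c₀ * n - 1) / a ≤ (M : ℝ) / a :=
      div_le_div_of_nonneg_right (by linarith) ha0.le
    have h4 : (1 : ℝ) / a ≤ 1 := (div_le_one ha0).2 haR
    rw [sub_div] at h3
    linarith
  have h2 : 16 ≤ c₀ * n / a := by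
    rw [le_div_iff₀ ha0]
    linarith
  have h3 : c₀ * n / a / 2 < ((M / a - 1 : ℕ) : ℝ) := by linarith
  have hk0 : 0 < M / a - 1 := by
    have : (0 : ℝ) < ((M / a - 1 : ℕ) : ℝ) := by linarith
    exact_mod_cast this
  have hKc : K * (c * n / a) ≤ c₀ * n / a / 2 := by
    have h5 : c * n / a ≤ c₀ / (4 * K) * n / a :=
      div_le_div_of_nonneg_right (mul_le_mul_of_nonneg_right hc2 hn0) ha0.le
    have h6 : K * (c₀ / (4 * K) * n / a) = c₀ * n / a / 4 := by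
      field_simp
    have h7 : K * (c * n / a) ≤ K * (c₀ / (4 * K) * n / a) := mul_le_mul_of_nonneg_left h5 hK0.le
    linarith
  refine ⟨φ, ψ, hφ, hψ, fun P => pmf_same P fun T => ?_⟩
  refine alg_same hr2 hcov (fun l F hlt => ?_) T
  refine hK _ _ _ _ (M / a - 1) hk0 ?_ (lemma12 F hr2 hk1 hcov)
  have hN0 : (0 : ℝ) ≤ (Fintype.card (F.Vtx (toStruct φ)) : ℝ) := Nat.cast_nonneg _
  have h8 : (Fintype.card (F.Vtx (toStruct φ)) : ℝ) ^ β ≤ c * n / a := by
    calc (Fintype.card (F.Vtx (toStruct φ)) : ℝ) ^ β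
        ≤ ((c * n / a) ^ (1 / β)) ^ β :=
          Real.rpow_le_rpow hN0 hlt.le hηR.le
      _ = c * n / a := by
          rw [← Real.rpow_mul hx0, one_div_mul_cancel hηR.ne', Real.rpow_one]
  have h9 := mul_le_mul_of_nonneg_left h8 hK0.le
  linarith

end Pool.Agent.Lib.MP_8d8c46_lc.Nw
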