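import Pool.Agent.Lib.MP_8d8c46_lc.Nw.Defs

/-!
# Symmetric threshold: the function `FF`, its extension, sets with the property `PS`
-/

set_option autoImplicit false

open scoped Classical
open Finset

namespace Pool.Agent.Lib.MP_8d8c46_lc.Nw

open Pool.Agent.Lib.MP_8d8c46_lc.CW

section
variable {V : Type} [Fintype V] {G : SimpleGraph V} {τ : ℝ}

theorem inside_sum (U : Finset V) :
    (inside G U : ℝ) = ∑ x, ∑ y, if G.Adj x y then (if x ∈ U ∧ y ∈ U then (1 : ℝ) else 0) else 0 := by
  rw [← qf_ind]
  unfold qf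
  refine Finset.sum_congr rfl fun x _ => Finset.sum_congr rfl fun y _ => ?_
  by_cases h : G.Adj x y <;> by_cases hx : x ∈ U <;> by_cases hy : y ∈ U <;> simp [h, hx, hy]

theorem FF_super (U T : Finset V) : FF G τ U + FF G τ T ≤ FF G τ (U ∪ T) + FF G τ (U ∩ T) := by
  unfold FF
  have h1 : ((U ∪ T).card : ℝ) + (U ∩ T).card = U.card + T.card := by
    exact_mod_cast card_union_add_card_inter U T
  have h2 : (inside G U : ℝ) + inside G T ≤ inside G (U ∪ T) + inside G (U ∩ T) := by
    rw [inside_sum, inside_sum, inside_sum, inside_sum, ← Finset.sum_add_distrib, ← Finset.sum_add_distrib]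
    refine Finset.sum_le_sum fun x _ => ?_
    rw [← Finset.sum_add_distrib, ← Finset.sum_add_distrib]
    refine Finset.sum_le_sum fun y _ => ?_
    by_cases h : G.Adj x y
    · by_cases hx : x ∈ U <;> by_cases hy : y ∈ U <;> by_cases hx' : x ∈ T <;> by_cases hy' : y ∈ T <;>
        simp [h, hx, hy, hx', hy']
    · simp [h]
  have h3 : τ * (((U ∪ T).card : ℝ) + (U ∩ T).card) = τ * (U.card + T.card) := by rw [h1]
  linarith

theorem PS_union {R T : Finset V} (hR : PS G τ R) (hT : PS G τ T) : PS G τ (R ∪ T) := by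
  intro U hU
  have h1 := FF_super (G := G) (τ := τ) U R
  have h2 := hR (U ∩ R) inter_subset_right
  have h3 := FF_super (G := G) (τ := τ) (U ∪ R) T
  have h4 := hT ((U ∪ R) ∩ T) inter_subset_right
  have h5 : U ∪ R ∪ T = R ∪ T := by
    ext x
    simp only [mem_union]
    constructor
    · rintro ((h | h) | h)
      · exact mem_union.1 (hU h)
      · exact Or.inl h
      · exact Or.inr h
    · rintro (h | h)
      · exact Or.inl (Or.inr h)
      · exact Or.inr h
  rw [h5] at h3
  linarith

theorem PS_biUnion (𝒢 : Finset (Finset V)) (h : ∀ R ∈ 𝒢, PS G τ R) : PS G τ (𝒢.biUnion id) := by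
  induction 𝒢 using Finset.induction with
  | empty =>
    intro U hU
    rw [Finset.biUnion_empty] at hU ⊢
    rw [Finset.subset_empty.1 hU]
  | insert R 𝒢 hR ih =>
    rw [Finset.biUnion_insert]
    exact PS_union (h R (Finset.mem_insert_self _ _)) (ih fun Q hQ => h Q (Finset.mem_insert_of_mem hQ))

theorem PS_le {R : Finset V} (hR : PS G τ R) : τ * R.card ≤ inside G R := by
  have h1 := hR ∅ (empty_subset _)
  unfold FF at h1
  have h2 : inside G (∅ : Finset V) = 0 := by
    rw [inside_eq]
    simp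
  rw [h2, card_empty] at h1
  norm_num at h1
  exact h1

theorem step_int {a M₀ : ℝ} (h0 : 0 ≤ a) (h1 : a ≤ M₀) :
    IntervalIntegrable (fun s => if s < a then (1 : ℝ) else 0) MeasureTheory.volume 0 M₀ ∧
      ∫ s in (0 : ℝ)..M₀, (if s < a then (1 : ℝ) else 0) = a := by
  have hint : ∀ u v : ℝ, IntervalIntegrable (fun s => if s < a then (1 : ℝ) else 0) MeasureTheory.volume u v := by
    intro u v
    refine Antitone.intervalIntegrable ?_
    intro s s' hs
    show (if s' < a then (1 : ℝ) else 0) ≤ if s < a then (1 : ℝ) else 0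
    by_cases h : s' < a
    · rw [if_pos h, if_pos (lt_of_le_of_lt hs h)]
    · rw [if_neg h]
      split_ifs <;> norm_num
  refine ⟨hint _ _, ?_⟩
  rw [← intervalIntegral.integral_add_adjacent_intervals (hint 0 a) (hint a M₀)]
  have e1 : ∫ s in (0 : ℝ)..a, (if s < a then (1 : ℝ) else 0) = ∫ s in (0 : ℝ)..a, (1 : ℝ) := by
    refine intervalIntegral.integral_congr_ae ?_
    have h3 : ∀ᵐ s : ℝ, s ≠ a := by
      rw [MeasureTheory.ae_iff]
      simp
    filter_upwards [h3] with s hs hmem
    rw [Set.uIoc_of_le h0] at hmem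
    rw [if_pos (lt_of_le_of_ne hmem.2 hs)]
  have e2 : ∫ s in a..M₀, (if s < a then (1 : ℝ) else 0) = ∫ s in a..M₀, (0 : ℝ) := by
    refine intervalIntegral.integral_congr ?_
    intro s hs
    rw [Set.uIcc_of_le h1] at hs
    show (if s < a then (1 : ℝ) else 0) = 0
    rw [if_neg (not_lt.2 hs.1)]
  rw [e1, e2]
  simp

theorem ii_sum {ι : Type} (A : Finset ι) (f : ι → ℝ → ℝ) {a b : ℝ}
    (h : ∀ i ∈ A, IntervalIntegrable (f i) MeasureTheory.volume a b) :
    IntervalIntegrable (fun x => ∑ i ∈ A, f i x) MeasureTheory.volume a b := by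
  induction A using Finset.induction with
  | empty =>
    simp only [Finset.sum_empty]
    exact intervalIntegrable_const
  | insert i A hi ih =>
    simp only [Finset.sum_insert hi]
    exact (h i (Finset.mem_insert_self _ _)).add (ih fun j hj => h j (Finset.mem_insert_of_mem hj))

/-- `LL` is an average of `FF` on the level sets. -/
theorem layer {M₀ B : ℝ} (hM : 0 ≤ M₀) {q : V → ℝ} (q0 : ∀ x, 0 ≤ q x ∧ q x ≤ M₀)
    (h : ∀ s, 0 ≤ s → s < M₀ → FF G τ (univ.filter fun x => s < q x) ≤ B) : LL G τ q ≤ M₀ * B := by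
  have e1 : ∀ s, FF G τ (univ.filter fun x => s < q x) =
      (∑ x, ∑ y, (if G.Adj x y then (1 : ℝ) else 0) * (if s < min (q x) (q y) then (1 : ℝ) else 0)) -
        τ * ∑ x, (if s < q x then (1 : ℝ) else 0) := by
    intro s
    unfold FF
    rw [inside_sum]
    congr 1
    · refine Finset.sum_congr rfl fun x _ => Finset.sum_congr rfl fun y _ => ?_
      by_cases h : G.Adj x y <;> simp [h]
    · rw [Finset.sum_boole]
  have hi1 : ∀ x y, IntervalIntegrable (fun s => (if G.Adj x y then (1 : ℝ) else 0) *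
      (if s < min (q x) (q y) then (1 : ℝ) else 0)) MeasureTheory.volume 0 M₀ := by
    intro x y
    exact (step_int (le_min (q0 x).1 (q0 y).1) (min_le_of_left_le (q0 x).2)).1.const_mul _
  have hi2 : ∀ x, IntervalIntegrable (fun s => (if s < q x then (1 : ℝ) else 0)) MeasureTheory.volume 0 M₀ :=
    fun x => (step_int (q0 x).1 (q0 x).2).1
  have hi5 : ∀ x, IntervalIntegrable (fun s => ∑ y, (if G.Adj x y then (1 : ℝ) else 0) *
      (if s < min (q x) (q y) then (1 : ℝ) else 0)) MeasureTheory.volume 0 M₀ :=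
    fun x => ii_sum univ (fun y s => (if G.Adj x y then (1 : ℝ) else 0) *
      (if s < min (q x) (q y) then (1 : ℝ) else 0)) fun y _ => hi1 x y
  have hi3 : IntervalIntegrable (fun s => ∑ x, ∑ y, (if G.Adj x y then (1 : ℝ) else 0) *
      (if s < min (q x) (q y) then (1 : ℝ) else 0)) MeasureTheory.volume 0 M₀ :=
    ii_sum univ (fun x s => ∑ y, (if G.Adj x y then (1 : ℝ) else 0) *
      (if s < min (q x) (q y) then (1 : ℝ) else 0)) fun x _ => hi5 x
  have hi4 : IntervalIntegrable (fun s => ∑ x, (if s < q x then (1 : ℝ) else 0)) MeasureTheory.volume 0 M₀ :=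
    ii_sum univ (fun x s => (if s < q x then (1 : ℝ) else 0)) fun x _ => hi2 x
  have e2 : ∫ s in (0 : ℝ)..M₀, FF G τ (univ.filter fun x => s < q x) = LL G τ q := by
    rw [intervalIntegral.integral_congr fun s _ => e1 s,
      intervalIntegral.integral_sub hi3 (hi4.const_mul τ), intervalIntegral.integral_const_mul]
    unfold LL
    congr 1
    · rw [intervalIntegral.integral_finsetSum fun x _ => hi5 x]
      refine Finset.sum_congr rfl fun x _ => ?_
      rw [intervalIntegral.integral_finsetSum fun y _ => hi1 x y]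
      refine Finset.sum_congr rfl fun y _ => ?_
      rw [intervalIntegral.integral_const_mul,
        (step_int (le_min (q0 x).1 (q0 y).1) (min_le_of_left_le (q0 x).2)).2]
      split_ifs <;> ring
    · rw [intervalIntegral.integral_finsetSum fun x _ => hi2 x]
      congr 1
      exact Finset.sum_congr rfl fun x _ => (step_int (q0 x).1 (q0 x).2).2
  have hFi : IntervalIntegrable (fun s => FF G τ (univ.filter fun x => s < q x)) MeasureTheory.volume 0 M₀ := by
    have h3 := hi3.sub (hi4.const_mul τ)
    have h7 : (fun s => FF G τ (univ.filter fun x => s < q x)) = fun s =>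
        (∑ x, ∑ y, (if G.Adj x y then (1 : ℝ) else 0) * (if s < min (q x) (q y) then (1 : ℝ) else 0)) -
          τ * ∑ x, (if s < q x then (1 : ℝ) else 0) := funext e1
    rw [h7]
    exact h3
  rw [← e2]
  have h5 : ∫ s in (0 : ℝ)..M₀, FF G τ (univ.filter fun x => s < q x) ≤ ∫ s in (0 : ℝ)..M₀, B := by
    refine intervalIntegral.integral_mono_ae_restrict hM hFi intervalIntegrable_const ?_
    have h6 : ∀ᵐ s : ℝ, s ≠ M₀ := by
      rw [MeasureTheory.ae_iff]
      simp
    rw [Filter.EventuallyLE, MeasureTheory.ae_restrict_iff' measurableSet_Icc]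
    filter_upwards [h6] with s hs hmem
    exact h s hmem.1 (lt_of_le_of_ne hmem.2 hs)
  refine h5.trans (le_of_eq ?_)
  simp

theorem LL_ind (U : Finset V) : LL G τ (fun x => if x ∈ U then 1 else 0) = FF G τ U := by
  unfold LL FF
  rw [inside_sum, Finset.sum_boole]
  congr 1
  · refine Finset.sum_congr rfl fun x _ => Finset.sum_congr rfl fun y _ => ?_
    by_cases h : G.Adj x y <;> by_cases hx : x ∈ U <;> by_cases hy : y ∈ U <;> simp [h, hx, hy]
  · congr 3
    ext x
    simp

end

end Pool.Agent.Lib.MP_8d8c46_lc.Nw
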