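import Pool.Agent.Lib.MP_8d8c46_lc.Nw.P

/-!
# Symmetric threshold: the exceptional set
-/

set_option autoImplicit false

open scoped Classical
open Finset

namespace Pool.Agent.Lib.MP_8d8c46_lc.Nw

open Pool.Agent.Lib.MP_8d8c46_lc.CW

section
variable {r : ℕ} {X : Bool → Type} {G : ∀ i, SimpleGraph (X i)} [∀ i, Fintype (X i)]

/-- Averaging over the colour classes does not decrease the sum of the minima over the edges. -/
theorem avgmin (S : Sys r X G) {i : Bool} (t : Fin r → X i) (q : X i → ℝ) :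
    ∑ x, ∑ y, (if (G i).Adj x y then min (q x) (q y) else 0) ≤
      ∑ x, ∑ y, (if (G i).Adj x y then min (avg (S.c i t) q x) (avg (S.c i t) q y) else 0) := by
  set p : X i → ℝ := avg (S.c i t) q with hp
  have hpm : Meas S i t p := fun x y hxy => avg_meas (S.c i t) q hxy
  set w₁ : X i → ℝ := fun x => ∑ y, if (G i).Adj x y ∧ p x ≤ p y then 1 else 0 with hw₁
  set w₂ : X i → ℝ := fun x => ∑ y, if (G i).Adj x y ∧ p x < p y then 1 else 0 with hw₂
  have hm₁ : ∀ x y, S.c i t x = S.c i t y → w₁ x = w₁ y := by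
    intro y z hyz
    obtain ⟨e, he⟩ := S.a1 i i t t y z hyz
    simp only [hw₁]
    rw [← Equiv.sum_comp e (fun w => if (G i).Adj z w ∧ p z ≤ p w then (1 : ℝ) else 0)]
    refine Finset.sum_congr rfl fun w _ => ?_
    have h1 : p w = p (e w) := hpm w (e w) (he w).1
    rw [h1, hpm y z hyz]
    exact if_congr (and_congr_left fun _ => (he w).2) rfl rfl
  have hm₂ : ∀ x y, S.c i t x = S.c i t y → w₂ x = w₂ y := by
    intro y z hyz
    obtain ⟨e, he⟩ := S.a1 i i t t y z hyz
    simp only [hw₂]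
    rw [← Equiv.sum_comp e (fun w => if (G i).Adj z w ∧ p z < p w then (1 : ℝ) else 0)]
    refine Finset.sum_congr rfl fun w _ => ?_
    have h1 : p w = p (e w) := hpm w (e w) (he w).1
    rw [h1, hpm y z hyz]
    exact if_congr (and_congr_left fun _ => (he w).2) rfl rfl
  have hterm : ∀ x y, (if (G i).Adj x y then min (q x) (q y) else 0) ≤
      q x * (if (G i).Adj x y ∧ p x ≤ p y then 1 else 0) + q y * (if (G i).Adj y x ∧ p y < p x then 1 else 0) := by
    intro x y
    by_cases h : (G i).Adj x y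
    · have h' : (G i).Adj y x := h.symm
      rw [if_pos h]
      by_cases hc : p x ≤ p y
      · rw [if_pos ⟨h, hc⟩, if_neg (fun hh => absurd hh.2 (not_lt.2 hc))]
        have := min_le_left (q x) (q y)
        linarith
      · rw [if_neg (fun hh => hc hh.2), if_pos ⟨h', not_le.1 hc⟩]
        have := min_le_right (q x) (q y)
        linarith
    · rw [if_neg h, if_neg (fun hh => h hh.1), if_neg (fun hh => h hh.1.symm)]
      norm_num
  have hterm' : ∀ x y, (if (G i).Adj x y then min (p x) (p y) else 0) =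
      p x * (if (G i).Adj x y ∧ p x ≤ p y then 1 else 0) + p y * (if (G i).Adj y x ∧ p y < p x then 1 else 0) := by
    intro x y
    by_cases h : (G i).Adj x y
    · have h' : (G i).Adj y x := h.symm
      rw [if_pos h]
      by_cases hc : p x ≤ p y
      · rw [if_pos ⟨h, hc⟩, if_neg (fun hh => absurd hh.2 (not_lt.2 hc)), min_eq_left hc]
        ring
      · rw [if_neg (fun hh => hc hh.2), if_pos ⟨h', not_le.1 hc⟩, min_eq_right (not_le.1 hc).le]
        ring
    · rw [if_neg h, if_neg (fun hh => h hh.1), if_neg (fun hh => h hh.1.symm)]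
      norm_num
  have hcollect : ∀ u : X i → ℝ, ∑ x, ∑ y, (u x * (if (G i).Adj x y ∧ p x ≤ p y then (1 : ℝ) else 0) +
      u y * (if (G i).Adj y x ∧ p y < p x then 1 else 0)) = ip u w₁ + ip u w₂ := by
    intro u
    have h1 : ∑ x, ∑ y, (u x * (if (G i).Adj x y ∧ p x ≤ p y then (1 : ℝ) else 0) +
        u y * (if (G i).Adj y x ∧ p y < p x then 1 else 0)) =
        ∑ x, ∑ y, u x * (if (G i).Adj x y ∧ p x ≤ p y then (1 : ℝ) else 0) +
        ∑ x, ∑ y, u y * (if (G i).Adj y x ∧ p y < p x then (1 : ℝ) else 0) := by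
      rw [← Finset.sum_add_distrib]
      exact Finset.sum_congr rfl fun x _ => Finset.sum_add_distrib
    rw [h1]
    congr 1
    · unfold ip
      refine Finset.sum_congr rfl fun x _ => ?_
      rw [hw₁, Finset.mul_sum]
    · rw [Finset.sum_comm]
      unfold ip
      refine Finset.sum_congr rfl fun x _ => ?_
      rw [hw₂, Finset.mul_sum]
  calc ∑ x, ∑ y, (if (G i).Adj x y then min (q x) (q y) else 0)
      ≤ ∑ x, ∑ y, (q x * (if (G i).Adj x y ∧ p x ≤ p y then (1 : ℝ) else 0) +
          q y * (if (G i).Adj y x ∧ p y < p x then 1 else 0)) :=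
        Finset.sum_le_sum fun x _ => Finset.sum_le_sum fun y _ => hterm x y
    _ = ip q w₁ + ip q w₂ := hcollect q
    _ = ip p w₁ + ip p w₂ := by
        rw [hp, avg_ip (S.c i t) q w₁ hm₁, avg_ip (S.c i t) q w₂ hm₂]
    _ = _ := by
        rw [← hcollect p]
        exact (Finset.sum_congr rfl fun x _ => Finset.sum_congr rfl fun y _ => hterm' x y).symm

/-- It suffices to consider measurable sets. -/
theorem sat (S : Sys r X G) {i : Bool} {t : Fin r → X i} {τ B : ℝ} {R₁ R₂ : Finset (X i)} (h₁ : MSet S i t R₁)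
    (h₂ : MSet S i t R₂) (h : ∀ U, MSet S i t U → R₁ ⊆ U → U ⊆ R₂ → FF (G i) τ U ≤ B) :
    ∀ U, R₁ ⊆ U → U ⊆ R₂ → FF (G i) τ U ≤ B := by
  intro U hU₁ hU₂
  set q : X i → ℝ := fun x => if x ∈ U then 1 else 0 with hq
  set p : X i → ℝ := avg (S.c i t) q with hp
  have hpm : Meas S i t p := fun x y hxy => avg_meas (S.c i t) q hxy
  have q01 : ∀ x, 0 ≤ q x ∧ q x ≤ 1 := by
    intro x
    simp only [hq]
    split_ifs <;> norm_num
  have p01 : ∀ x, 0 ≤ p x ∧ p x ≤ 1 := avg_mem (S.c i t) q01
  have hpos : ∀ x : X i, 0 < ((univ.filter (fun y => S.c i t y = S.c i t x)).card : ℝ) := by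
    intro x
    have : 0 < (univ.filter (fun y => S.c i t y = S.c i t x)).card :=
      Finset.card_pos.2 ⟨x, by simp only [mem_filter, mem_univ, true_and]⟩
    exact_mod_cast this
  have hone : ∀ x ∈ R₁, p x = 1 := by
    intro x hx
    rw [hp]
    unfold avg
    rw [div_eq_one_iff_eq (hpos x).ne']
    have h3 : ∀ y ∈ univ.filter (fun y => S.c i t y = S.c i t x), q y = 1 := by
      intro y hy
      simp only [hq]
      rw [if_pos (hU₁ (h₁ x y (mem_filter.1 hy).2.symm hx))]
    rw [Finset.sum_congr rfl h3, Finset.sum_const, nsmul_eq_mul, mul_one]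
  have hzero : ∀ x, x ∉ R₂ → p x = 0 := by
    intro x hx
    rw [hp]
    unfold avg
    rw [div_eq_zero_iff]
    left
    refine Finset.sum_eq_zero fun y hy => ?_
    simp only [hq]
    rw [if_neg]
    intro hyU
    exact hx (h₂ y x (mem_filter.1 hy).2 (hU₂ hyU))
  have h3 : LL (G i) τ p ≤ 1 * B := by
    refine layer (by norm_num) p01 ?_
    intro s hs0 hs1
    refine h _ ?_ ?_ ?_
    · intro y z hyz hy
      rw [mem_filter] at hy ⊢
      exact ⟨mem_univ _, by rw [← hpm y z hyz]; exact hy.2⟩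
    · intro x hx
      rw [mem_filter]
      exact ⟨mem_univ _, by rw [hone x hx]; exact hs1⟩
    · intro x hx
      rw [mem_filter] at hx
      by_contra hcon
      rw [hzero x hcon] at hx
      linarith [hx.2]
  have h4 : LL (G i) τ q ≤ LL (G i) τ p := by
    unfold LL
    have h5 := avgmin S t q
    have h6 : ∑ x, p x = ∑ x, q x := avg_sum (S.c i t) q
    rw [h6]
    linarith
  have h7 : LL (G i) τ q = FF (G i) τ U := LL_ind U
  linarith

/-- Equivalent measurable sets have the same value of `FF`. -/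
theorem FF_map (S : Sys r X G) {i j : Bool} {t : Fin r → X i} {t' : Fin r → X j} (f : X i ≃ X j)
    (hf : ∀ z, S.c i t z = S.c j t' (f z)) {τ : ℝ} {R : Finset (X i)} (hR : MSet S i t R) :
    FF (G j) τ (R.map f.toEmbedding) = FF (G i) τ R := by
  have hfs : ∀ z', S.c i t (f.symm z') = S.c j t' z' := by
    intro z'
    have h1 := hf (f.symm z')
    rwa [Equiv.apply_symm_apply] at h1
  have hmem : ∀ z', z' ∈ R.map f.toEmbedding ↔ f.symm z' ∈ R := by
    intro z'
    exact Finset.mem_map_equiv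
  have hdg : ∀ z, dg (G j) (R.map f.toEmbedding) (f z) = dg (G i) R z := by
    intro z
    obtain ⟨g, hg⟩ := S.a1 i j t t' z (f z) (hf z)
    unfold dg
    refine (Finset.card_equiv g ?_).symm
    intro w
    have e1 : S.c i t w = S.c i t (f.symm (g w)) := (hg w).1.trans (hfs (g w)).symm
    simp only [Finset.mem_filter, Finset.mem_univ, true_and]
    rw [hmem, ← (hg w).2]
    exact and_congr_right fun _ => ⟨fun k => hR _ _ e1 k, fun k => hR _ _ e1.symm k⟩
  unfold FF
  rw [inside_eq, inside_eq, Finset.sum_map, Finset.card_map]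
  congr 2
  exact Finset.sum_congr rfl fun z _ => hdg z

omit [∀ i, Fintype (X i)] in
theorem mset_map (S : Sys r X G) {i j : Bool} {t : Fin r → X i} {t' : Fin r → X j} (f : X i ≃ X j)
    (hf : ∀ z, S.c i t z = S.c j t' (f z)) {R : Finset (X i)} (hR : MSet S i t R) :
    MSet S j t' (R.map f.toEmbedding) := by
  intro y z hyz hy
  rw [Finset.mem_map_equiv] at hy ⊢
  refine hR _ _ ?_ hy
  rw [hf, hf, Equiv.apply_symm_apply, Equiv.apply_symm_apply]
  exact hyz

theorem PS_map (S : Sys r X G) {i j : Bool} {t : Fin r → X i} {t' : Fin r → X j} (f : X i ≃ X j)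
    (hf : ∀ z, S.c i t z = S.c j t' (f z)) {τ : ℝ} {R : Finset (X i)} (hR : MSet S i t R) (hps : PS (G i) τ R) :
    PS (G j) τ (R.map f.toEmbedding) := by
  have hfs : ∀ z', S.c i t (f.symm z') = S.c j t' z' := by
    intro z'
    have h1 := hf (f.symm z')
    rwa [Equiv.apply_symm_apply] at h1
  intro U hU
  refine sat S (R₁ := ∅) (R₂ := R.map f.toEmbedding) (t := t') (fun y z _ hy => absurd hy (notMem_empty _))
    (mset_map S f hf hR) ?_ U (empty_subset _) hU
  intro U' hU' _ hsub
  have h1 : FF (G i) τ (U'.map f.symm.toEmbedding) = FF (G j) τ U' := FF_map S f.symm (fun z => (hfs z).symm) hU'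
  rw [← h1, FF_map S f hf hR]
  refine hps _ ?_
  intro y hy
  rw [Finset.mem_map_equiv] at hy
  have h2 := hsub hy
  rw [Finset.mem_map_equiv] at h2
  simpa using h2

theorem WS_colour (S : Sys r X G) {τ b : ℝ} (m : ℕ) {i j : Bool} {u : Fin r → X i} {u' : Fin r → X j} {x : X i}
    {x' : X j} (h : S.c i u x = S.c j u' x') (hx : x ∈ WS S τ b i m) : x' ∈ WS S τ b j m := by
  induction m generalizing i j u u' x x' with
  | zero =>
    unfold WS at hx
    exact absurd hx (notMem_empty _)
  | succ m ih =>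
    unfold WS at hx ⊢
    rw [mem_union, mem_biUnion] at hx ⊢
    rcases hx with hx | ⟨R, hR, hxR⟩
    · exact Or.inl (ih h hx)
    · right
      rw [mem_filter] at hR
      obtain ⟨-, ⟨t, hM⟩, hcard, hps⟩ := hR
      obtain ⟨t', ht'⟩ := S.a2 i j u u' x x' h t
      obtain ⟨f, hf⟩ := S.a1 i j t t' x x' ht'
      have hf1 : ∀ z, S.c i t z = S.c j t' (f z) := fun z => (hf z).1
      have hfs : ∀ z', S.c i t (f.symm z') = S.c j t' z' := by
        intro z'
        have h1 := hf1 (f.symm z')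
        rwa [Equiv.apply_symm_apply] at h1
      have hM' := mset_map S f hf1 hM
      have hW : WS S τ b j m ∪ R.map f.toEmbedding = (WS S τ b i m ∪ R).map f.toEmbedding := by
        ext z
        rw [mem_union, Finset.mem_map_equiv, Finset.mem_map_equiv, mem_union]
        refine or_congr_left ?_
        exact ⟨fun k => ih (hfs z).symm k, fun k => ih (hfs z) k⟩
      have hWm : MSet S i t (WS S τ b i m ∪ R) := by
        intro y z hyz hy
        rcases mem_union.1 hy with h | h
        · exact mem_union_left _ (ih hyz h)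
        · exact mem_union_right _ (hM y z hyz h)
      refine ⟨R.map f.toEmbedding, mem_filter.2 ⟨mem_univ _, ⟨t', hM'⟩, ?_, ?_⟩, ?_⟩
      · rw [Finset.card_map]
        exact hcard
      · rw [hW]
        exact PS_map S f hf1 hWm hps
      · simp only [id_eq] at hxR ⊢
        rw [Finset.mem_map_equiv]
        exact hM _ _ (ht'.trans (hfs x').symm) hxR

theorem mem_WT (S : Sys r X G) {τ b : ℝ} {i : Bool} {x : X i} : x ∈ WT S τ b i ↔ ∃ m, x ∈ WS S τ b i m := by
  unfold WT
  rw [mem_filter]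
  exact ⟨fun h => h.2, fun h => ⟨mem_univ _, h⟩⟩

theorem WT_colour (S : Sys r X G) {τ b : ℝ} {i j : Bool} {u : Fin r → X i} {u' : Fin r → X j} {x : X i}
    {x' : X j} (h : S.c i u x = S.c j u' x') (hx : x ∈ WT S τ b i) : x' ∈ WT S τ b j := by
  rw [mem_WT] at hx ⊢
  obtain ⟨m, hm⟩ := hx
  exact ⟨m, WS_colour S m h hm⟩

theorem WT_card (S : Sys r X G) [Nonempty (X false)] (τ b : ℝ) :
    (WT S τ b false).card = (WT S τ b true).card := by
  obtain ⟨t', f, hf⟩ := S.a5 (fun _ => Classical.arbitrary (X false))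
  refine Finset.card_equiv f ?_
  intro x
  exact ⟨fun k => WT_colour S (hf x) k, fun k => WT_colour S (hf x).symm k⟩

theorem W_mset (S : Sys r X G) (τ b : ℝ) (i : Bool) (t : Fin r → X i) : MSet S i t (WT S τ b i) :=
  fun _ _ hyz hy => WT_colour S hyz hy

theorem WS_mono (S : Sys r X G) (τ b : ℝ) (i : Bool) {m m' : ℕ} (h : m ≤ m') : WS S τ b i m ⊆ WS S τ b i m' := by
  induction h with
  | refl => exact Finset.Subset.refl _
  | step _ ih =>
    refine ih.trans ?_
    conv_rhs => unfold WS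
    exact subset_union_left

theorem WT_eq (S : Sys r X G) (τ b : ℝ) (i : Bool) : ∃ m, WT S τ b i = WS S τ b i m := by
  have h1 : ∀ x : X i, ∃ m, x ∈ WT S τ b i → x ∈ WS S τ b i m := by
    intro x
    by_cases hx : x ∈ WT S τ b i
    · obtain ⟨m, hm⟩ := (mem_WT S).1 hx
      exact ⟨m, fun _ => hm⟩
    · exact ⟨0, fun h => absurd h hx⟩
  choose k hk using h1
  refine ⟨univ.sup k, Finset.Subset.antisymm ?_ ?_⟩
  · intro x hx
    exact WS_mono S τ b i (Finset.le_sup (mem_univ x)) (hk x hx)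
  · intro x hx
    exact (mem_WT S).2 ⟨_, hx⟩

theorem PS_chain {V : Type} [Fintype V] {G : SimpleGraph V} {τ : ℝ} {U : Finset V} (hU : PS G τ U)
    (𝒢 : Finset (Finset V)) (h : ∀ R ∈ 𝒢, PS G τ (U ∪ R)) : PS G τ (U ∪ 𝒢.biUnion id) := by
  induction 𝒢 using Finset.induction with
  | empty =>
    rw [Finset.biUnion_empty, union_empty]
    exact hU
  | insert R 𝒢 hR ih =>
    have h1 : U ∪ (insert R 𝒢).biUnion id = (U ∪ R) ∪ (U ∪ 𝒢.biUnion id) := by
      rw [Finset.biUnion_insert, id_eq]
      ext x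
      simp only [mem_union]
      tauto
    rw [h1]
    exact PS_union (h R (Finset.mem_insert_self _ _)) (ih fun Q hQ => h Q (Finset.mem_insert_of_mem hQ))

theorem WS_ps (S : Sys r X G) (τ b : ℝ) (i : Bool) (m : ℕ) : PS (G i) τ (WS S τ b i m) := by
  induction m with
  | zero =>
    intro U hU
    unfold WS at hU ⊢
    rw [Finset.subset_empty.1 hU]
  | succ m ih =>
    unfold WS
    exact PS_chain ih _ fun R hR => (Finset.mem_filter.1 hR).2.2.2

theorem W_ps (S : Sys r X G) (τ b : ℝ) (i : Bool) : PS (G i) τ (WT S τ b i) := by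
  obtain ⟨m, hm⟩ := WT_eq S τ b i
  rw [hm]
  exact WS_ps S τ b i m

/-- Outside of the exceptional set all small measurable sets are sparse. PROOF: a measurable set `U` with `W ⊆ U ⊆ W ∪ R`
and the largest value of `FF` has the property `PS`, so `U ⊆ W` by the definition of `W`. -/
theorem peelP (S : Sys r X G) {τ b : ℝ} {i : Bool} {t : Fin r → X i} {R : Finset (X i)} (hR : MSet S i t R)
    (hc : (R.card : ℝ) ≤ b) :
    ∀ Q ⊆ R, FF (G i) τ (WT S τ b i ∪ Q) ≤ FF (G i) τ (WT S τ b i) := by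
  intro Q hQ
  set W := WT S τ b i with hW
  have hWm : MSet S i t W := W_mset S τ b i t
  have hWR : MSet S i t (W ∪ R) := by
    intro y z hyz hy
    rcases mem_union.1 hy with h | h
    · exact mem_union_left _ (hWm y z hyz h)
    · exact mem_union_right _ (hR y z hyz h)
  refine sat S hWm hWR ?_ (W ∪ Q) subset_union_left (union_subset_union_right hQ)
  -- the maximiser
  obtain ⟨U, hU, hmax⟩ := Finset.exists_max_image
    (univ.filter fun U : Finset (X i) => MSet S i t U ∧ W ⊆ U ∧ U ⊆ W ∪ R) (fun U => FF (G i) τ U)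
    ⟨W, Finset.mem_filter.2 ⟨mem_univ _, hWm, Finset.Subset.refl _, subset_union_left⟩⟩
  rw [Finset.mem_filter] at hU
  obtain ⟨-, hUm, hWU, hUR⟩ := hU
  have hUps : PS (G i) τ U := by
    intro T hT
    refine sat S (R₁ := ∅) (R₂ := U) (t := t) (fun y z _ hy => absurd hy (notMem_empty _)) hUm ?_ T
      (empty_subset _) hT
    intro T' hT' _ hsub
    have h1 := FF_super (G := G i) (τ := τ) T' W
    have h2 := W_ps S τ b i (T' ∩ W) inter_subset_right
    have h3 := hmax (T' ∪ W) (Finset.mem_filter.2 ⟨mem_univ _, fun y z hyz hy => by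
      rcases mem_union.1 hy with h | h
      · exact mem_union_left _ (hT' y z hyz h)
      · exact mem_union_right _ (hWm y z hyz h), subset_union_right,
      union_subset (hsub.trans hUR) subset_union_left⟩)
    rw [← hW] at h2
    linarith
  obtain ⟨m, hm⟩ := WT_eq S τ b i
  rw [← hW] at hm
  have hEq0 : WS S τ b i m ∪ U \ W = U := by
    rw [← hm]
    ext x
    rw [mem_union, mem_sdiff]
    constructor
    · rintro (h | h)
      · exact hWU h
      · exact h.1
    · intro h
      by_cases hx : x ∈ W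
      · exact Or.inl hx
      · exact Or.inr ⟨h, hx⟩
  have hRT : RT S τ b i (WS S τ b i m) (U \ W) := by
    refine ⟨⟨t, ?_⟩, ?_, ?_⟩
    · intro y z hyz hy
      rw [mem_sdiff] at hy ⊢
      exact ⟨hUm y z hyz hy.1, fun h => hy.2 (hWm z y hyz.symm h)⟩
    · have h1 : (U \ W).card ≤ R.card := by
        refine card_le_card ?_
        intro x hx
        rw [mem_sdiff] at hx
        exact (mem_union.1 (hUR hx.1)).resolve_left hx.2
      have h2 : ((U \ W).card : ℝ) ≤ R.card := by exact_mod_cast h1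
      linarith
    · rw [hEq0]
      exact hUps
  have hUW : U ⊆ W := by
    intro x hx
    by_contra hcon
    refine hcon ?_
    rw [hW, mem_WT]
    refine ⟨m + 1, ?_⟩
    unfold WS
    exact mem_union_right _ (mem_biUnion.2 ⟨U \ W, mem_filter.2 ⟨mem_univ _, hRT⟩, mem_sdiff.2 ⟨hx, hcon⟩⟩)
  have hEq : U = W := Finset.Subset.antisymm hUW hWU
  intro T hT h1 h2
  have h3 := hmax T (Finset.mem_filter.2 ⟨mem_univ _, hT, h1, h2⟩)
  rw [hEq] at h3
  exact h3

/-- The exceptional set is small in a No instance. PROOF: a set with the property `PS` and at most `M` vertices has at most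
`M / (1 + ρ)` vertices, and in each step at most `ρ M / 2` vertices are added. -/
theorem WS_small (S : Sys r X G) {i : Bool} {d : ℕ} (hd : 1 ≤ d) {M : ℕ} (hM : M ≤ Fintype.card (X i))
    {η ρ : ℝ} (h0 : 0 < η) (hρ0 : 0 < ρ) (hρ1 : ρ ≤ 1)
    (hno : ∀ S : Finset (X i), S.card = M → (inside (G i) S : ℝ) ≤ η * (d * M)) (m : ℕ) :
    (1 + ρ) * ((WS S ((1 + ρ) * η * d) (ρ / 2 * M) i m).card : ℝ) ≤ M := by
  have hd' : (0 : ℝ) < d := by exact_mod_cast hd
  have hM0 : (0 : ℝ) ≤ M := Nat.cast_nonneg _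
  have small : ∀ U : Finset (X i), U.card ≤ M → PS (G i) ((1 + ρ) * η * d) U → (1 + ρ) * (U.card : ℝ) ≤ M := by
    intro U hU hps
    obtain ⟨S, hUS, hS⟩ := Finset.exists_superset_card_eq hU hM
    have h3 := hno S hS
    have h4 : (inside (G i) U : ℝ) ≤ inside (G i) S := by exact_mod_cast inside_mono hUS
    have h5 := PS_le hps
    have h6 : (η * d) * ((1 + ρ) * (U.card : ℝ)) ≤ (η * d) * M := by nlinarith
    exact le_of_mul_le_mul_left h6 (by positivity)
  induction m with
  | zero =>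
    unfold WS
    simp
  | succ m ih =>
    have key : ∀ 𝒢 : Finset (Finset (X i)), (∀ R ∈ 𝒢, RT S ((1 + ρ) * η * d) (ρ / 2 * M) i
        (WS S ((1 + ρ) * η * d) (ρ / 2 * M) i m) R) →
        (1 + ρ) * ((WS S ((1 + ρ) * η * d) (ρ / 2 * M) i m ∪ 𝒢.biUnion id).card : ℝ) ≤ M := by
      intro 𝒢
      induction 𝒢 using Finset.induction with
      | empty =>
        intro _
        rw [Finset.biUnion_empty, union_empty]
        exact ih
      | insert R 𝒢 hR ih2 =>
        intro hall
        have ih' := ih2 fun Q hQ => hall Q (Finset.mem_insert_of_mem hQ)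
        have hRF := hall R (Finset.mem_insert_self R 𝒢)
        have h1 : WS S ((1 + ρ) * η * d) (ρ / 2 * M) i m ∪ (insert R 𝒢).biUnion id =
            R ∪ (WS S ((1 + ρ) * η * d) (ρ / 2 * M) i m ∪ 𝒢.biUnion id) := by
          rw [Finset.biUnion_insert, id_eq]
          ext x
          simp only [mem_union]
          tauto
        refine small _ ?_ (PS_chain (WS_ps S _ _ i m) _ fun Q hQ => (hall Q hQ).2.2)
        have h2 : ((WS S ((1 + ρ) * η * d) (ρ / 2 * M) i m ∪ (insert R 𝒢).biUnion id).card : ℝ) ≤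
            R.card + (WS S ((1 + ρ) * η * d) (ρ / 2 * M) i m ∪ 𝒢.biUnion id).card := by
          rw [h1]
          exact_mod_cast Finset.card_union_le _ _
        have h3 := hRF.2.1
        have h4 : ((WS S ((1 + ρ) * η * d) (ρ / 2 * M) i m ∪ (insert R 𝒢).biUnion id).card : ℝ) ≤ M := by
          obtain ⟨c, hc⟩ : ∃ c : ℝ, c = ((WS S ((1 + ρ) * η * d) (ρ / 2 * M) i m ∪ 𝒢.biUnion id).card : ℝ) := ⟨_, rfl⟩
          rw [← hc] at ih' h2
          have h5 : (1 + ρ) * (ρ / 2 * M + c) ≤ (1 + ρ) * M := by nlinarith [mul_nonneg hρ0.le hM0]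
          have h6 : ρ / 2 * M + c ≤ M := le_of_mul_le_mul_left h5 (by linarith)
          linarith
        exact_mod_cast h4
    unfold WS
    exact key _ fun R hR => (Finset.mem_filter.1 hR).2

theorem WT_small (S : Sys r X G) {i : Bool} {d : ℕ} (hd : 1 ≤ d) {M : ℕ} (hM : M ≤ Fintype.card (X i))
    {η ρ : ℝ} (h0 : 0 < η) (hρ0 : 0 < ρ) (hρ1 : ρ ≤ 1)
    (hno : ∀ S : Finset (X i), S.card = M → (inside (G i) S : ℝ) ≤ η * (d * M)) :
    (1 + ρ) * ((WT S ((1 + ρ) * η * d) (ρ / 2 * M) i).card : ℝ) ≤ M := by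
  obtain ⟨m, hm⟩ := WT_eq S ((1 + ρ) * η * d) (ρ / 2 * M) i
  rw [hm]
  exact WS_small S hd hM h0 hρ0 hρ1 hno m

end

end Pool.Agent.Lib.MP_8d8c46_lc.Nw
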